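import Pool.Agent.W392.Fix
import Pool.Agent.Helper270.HNN

set_option autoImplicit false

/-! The group is not virtually a surface group. -/

namespace Pool.Agent.W392

open HNNExtension Pool.Agent.Helper270.HNN

section HNN

variable {K : Type} [Group K] {A B : Subgroup K} {ψ : A ≃* B}

theorem hnn_tf (hK : ∀ x : K, IsOfFinOrder x → x = 1) (g : HNNExtension K A B ψ)
    (hg : IsOfFinOrder g) : g = 1 := by
  obtain ⟨v, hv⟩ := fix_of_finOrder (treeAct (φ := ψ)) hg
  obtain ⟨x, rfl⟩ := exists_vt v
  rw [smul_vt, vt_eq_iff] at hv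
  obtain ⟨y, hy⟩ := hv
  have h1 : g = x * of y⁻¹ * x⁻¹ := by
    rw [map_inv]
    have : g * x = x * (of y)⁻¹ := by rw [eq_mul_inv_iff_mul_eq]; exact hy
    rw [← this]
    group
  have h2 : IsOfFinOrder (of y⁻¹ : HNNExtension K A B ψ) := by
    obtain ⟨n, hn, hn1⟩ := isOfFinOrder_iff_pow_eq_one.1 hg
    rw [h1, conj_pow] at hn1
    refine isOfFinOrder_iff_pow_eq_one.2 ⟨n, hn, ?_⟩
    have h3 : (of y⁻¹ : HNNExtension K A B ψ) ^ n =
        x⁻¹ * (x * (of y⁻¹ : HNNExtension K A B ψ) ^ n * x⁻¹) * x := by group
    rw [h3, hn1]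
    simp
  have h3 : y⁻¹ = 1 := by
    apply hK
    obtain ⟨n, hn, hn1⟩ := isOfFinOrder_iff_pow_eq_one.1 h2
    refine isOfFinOrder_iff_pow_eq_one.2 ⟨n, hn, ?_⟩
    apply of_injective ψ
    rw [map_pow, hn1, map_one]
  rw [h1, h3]
  simp

end HNN

theorem free_tf {ι : Type} (x : FreeGroup ι) (hx : IsOfFinOrder x) : x = 1 := by
  by_contra hne
  exact not_isOfFinOrder_of_isMulTorsionFree hne hx

/-- The isomorphism between two infinite cyclic subgroups. -/
noncomputable def cyc {K : Type} [Group K] {u v : K} (hu : Function.Injective (zpowersHom K u))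
    (hv : Function.Injective (zpowersHom K v)) :
    (zpowersHom K u).range ≃* (zpowersHom K v).range :=
  (MonoidHom.ofInjective hu).symm.trans (MonoidHom.ofInjective hv)

theorem cyc_apply {K : Type} [Group K] {u v : K} (hu : Function.Injective (zpowersHom K u))
    (hv : Function.Injective (zpowersHom K v)) (a : (zpowersHom K u).range) :
    ∃ n : ℤ, (a : K) = u ^ n ∧ ((cyc hu hv a : _) : K) = v ^ n := by
  obtain ⟨n, hn⟩ := (MonoidHom.ofInjective hu).surjective a
  refine ⟨n.toAdd, ?_, ?_⟩
  · rw [← hn]; rfl
  · rw [← hn, cyc, MulEquiv.trans_apply, MulEquiv.symm_apply_apply]; rfl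

/-- Criterion for torsion-freeness. -/
theorem tf_criterion {ι S : Type} [Group S] {u v : FreeGroup ι}
    (hu : Function.Injective (zpowersHom (FreeGroup ι) u))
    (hv : Function.Injective (zpowersHom (FreeGroup ι) v))
    (p : FreeGroup ι →* S) (x : S) (hx : x * p u = p v * x)
    (hf : ∀ (M : Type) [Group M] (o : FreeGroup ι →* M) (τ : M), τ * o u = o v * τ →
      ∃ f : S →* M, ∀ l : M →* S, (∀ k, l (o k) = p k) → l τ = x → ∀ s, l (f s) = s)
    (s : S) (hs : IsOfFinOrder s) : s = 1 := by
  have hx' : ∀ a : (zpowersHom (FreeGroup ι) u).range,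
      x * p a = p (cyc hu hv a : FreeGroup ι) * x := by
    intro a
    obtain ⟨n, h1, h2⟩ := cyc_apply hu hv a
    rw [h1, h2, map_zpow, map_zpow]
    have h3 : SemiconjBy x (p u) (p v) := hx
    exact (h3.zpow_right n)
  have htu : (t : HNNExtension (FreeGroup ι) _ _ (cyc hu hv)) * of u = of v * t := by
    have hmem : u ∈ (zpowersHom (FreeGroup ι) u).range := ⟨Multiplicative.ofAdd 1, by simp⟩
    have h1 := t_mul_of (φ := cyc hu hv) ⟨u, hmem⟩
    obtain ⟨n, h2, h3⟩ := cyc_apply hu hv ⟨u, hmem⟩
    have h4 : n = 1 := by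
      have h5 : u ^ (1 : ℤ) = u ^ n := by rw [zpow_one]; exact h2
      have h6 := hu (a₁ := Multiplicative.ofAdd 1) (a₂ := Multiplicative.ofAdd n)
        (by rw [zpowersHom_apply, zpowersHom_apply]; exact h5)
      exact (Multiplicative.ofAdd.injective h6).symm
    have h7 : ((cyc hu hv ⟨u, hmem⟩ : _) : FreeGroup ι) = v := by rw [h3, h4, zpow_one]
    rw [h7] at h1
    exact h1
  obtain ⟨f, hf⟩ := hf _ of t htu
  have h1 := hf (HNNExtension.lift p x hx') (fun k => lift_of _ _ _ k) (lift_t _ _ _)
  have h2 : f s = 1 := hnn_tf free_tf _ (f.isOfFinOrder hs)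
  rw [← h1 s, h2, map_one]

theorem inj_of {ι : Type} {u : FreeGroup ι} (χ : FreeGroup ι →* Multiplicative ℤ)
    (h : χ u = Multiplicative.ofAdd 1 ∨ χ u = Multiplicative.ofAdd (-1)) :
    Function.Injective (zpowersHom (FreeGroup ι) u) := by
  rw [injective_iff_map_eq_one]
  intro n hn
  rw [zpowersHom_apply] at hn
  have h1 := congrArg χ hn
  rw [map_zpow, map_one] at h1
  rcases h with h | h
  · rw [h, ← ofAdd_zsmul] at h1
    have h2 : n.toAdd • (1 : ℤ) = 0 := h1
    simp at h2
    exact h2
  · rw [h, ← ofAdd_zsmul] at h1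
    have h2 : n.toAdd • (-1 : ℤ) = 0 := h1
    simp at h2
    exact h2

/-- The product of the commutators except the first one. -/
def wO (g : ℕ) : FreeGroup (Fin (g + 1) × Bool) :=
  (((List.finRange g).map Fin.succ).map fun i => FreeGroup.of (i, false) * FreeGroup.of (i, true) *
    (FreeGroup.of (i, false))⁻¹ * (FreeGroup.of (i, true))⁻¹).prod

theorem relO (g : ℕ) : orientableRelator (g + 1) = FreeGroup.of (0, false) *
    FreeGroup.of (0, true) * (FreeGroup.of (0, false))⁻¹ * (FreeGroup.of (0, true))⁻¹ * wO g := by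
  rw [orientableRelator, wO, List.finRange_succ, List.map_cons, List.prod_cons]

theorem prod_one {M : Type} [Monoid M] {β : Type} (l : List β) (f : β → M) (h : ∀ x ∈ l, f x = 1) :
    (l.map f).prod = 1 := by
  apply List.prod_eq_one
  intro x hx
  obtain ⟨y, hy, rfl⟩ := List.mem_map.1 hx
  exact h y hy

theorem prod_congr' {M N : Type} [Monoid M] [Monoid N] {β : Type} (f g : M →* N) (l : List β)
    (h : β → M) (H : ∀ x ∈ l, f (h x) = g (h x)) : f (l.map h).prod = g (l.map h).prod := by
  induction l with
  | nil => simp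
  | cons a l ih =>
    rw [List.map_cons, List.prod_cons, map_mul, map_mul, H a (by simp),
      ih (fun x hx => H x (by simp [hx]))]

theorem orientable_tf (g : ℕ) (s : PresentedGroup {orientableRelator (g + 1)})
    (hs : IsOfFinOrder s) : s = 1 := by
  classical
  let χ : FreeGroup (Fin (g + 1) × Bool) →* Multiplicative ℤ :=
    FreeGroup.lift (fun i => if i = (0, true) then Multiplicative.ofAdd 1 else 1)
  have hχw : χ (wO g) = 1 := by
    rw [wO, map_list_prod, List.map_map]
    apply prod_one
    intro i _
    simp only [Function.comp, map_mul, map_inv]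
    rw [mul_comm (χ _) (χ _)]
    simp
  have hR : (PresentedGroup.mk {orientableRelator (g + 1)}) (FreeGroup.of (0, false) *
    FreeGroup.of (0, true) * (FreeGroup.of (0, false))⁻¹ * (FreeGroup.of (0, true))⁻¹ * wO g) =
      1 := by
    rw [← relO]
    exact PresentedGroup.one_of_mem rfl
  refine tf_criterion (u := FreeGroup.of (0, true)) (v := (wO g)⁻¹ * FreeGroup.of (0, true))
    (inj_of χ (by left; simp [χ])) (inj_of χ (by left; rw [map_mul, map_inv, hχw]; simp [χ]))
    (PresentedGroup.mk {orientableRelator (g + 1)}) (PresentedGroup.of (0, false)) ?_ ?_ s hs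
  · rw [map_mul] at hR
    have h2 := mul_eq_one_iff_eq_inv.1 hR
    rw [map_mul, map_inv, ← h2]
    simp only [map_mul, map_inv]
    change PresentedGroup.of _ * PresentedGroup.of _ = PresentedGroup.of _ * PresentedGroup.of _ *
      (PresentedGroup.of _)⁻¹ * (PresentedGroup.of _)⁻¹ * PresentedGroup.of _ * PresentedGroup.of _
    group
  · intro M _ o τ h
    let gen : Fin (g + 1) × Bool → M :=
      fun i => if i = (0, false) then τ else o (FreeGroup.of i)
    have hgw : FreeGroup.lift gen (wO g) = o (wO g) := by
      rw [wO]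
      apply prod_congr'
      intro i hi
      obtain ⟨j, -, rfl⟩ := List.mem_map.1 hi
      simp [gen]
    have hrel : ∀ r ∈ ({orientableRelator (g + 1)} : Set (FreeGroup (Fin (g + 1) × Bool))),
        FreeGroup.lift gen r = 1 := by
      rintro r rfl
      rw [relO, map_mul, map_mul, map_mul, map_mul, map_inv, map_inv, hgw]
      simp only [FreeGroup.lift_apply_of]
      have e1 : gen (0, false) = τ := by simp [gen]
      have e2 : gen (0, true) = o (FreeGroup.of (0, true)) := by simp [gen]
      rw [e1, e2, h, mul_inv_cancel_right, map_mul, map_inv]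
      group
    refine ⟨PresentedGroup.toGroup hrel, fun l hl ht s => ?_⟩
    have : l.comp (PresentedGroup.toGroup hrel) = MonoidHom.id _ := by
      apply PresentedGroup.ext
      intro i
      rw [MonoidHom.comp_apply, PresentedGroup.toGroup.of, MonoidHom.id_apply]
      by_cases hi : i = (0, false)
      · simp only [gen, hi, if_true, ht]
      · simp only [gen, if_neg hi, hl]; rfl
    exact DFunLike.congr_fun this s

/-- The product of the squares except the first two. -/
def wN (k : ℕ) : FreeGroup (Fin (k + 2)) :=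
  ((((List.finRange k).map Fin.succ).map Fin.succ).map fun i => FreeGroup.of i ^ 2).prod

theorem relN (k : ℕ) : nonorientableRelator (k + 2) =
    FreeGroup.of 0 ^ 2 * FreeGroup.of 1 ^ 2 * wN k := by
  rw [nonorientableRelator, wN, List.finRange_succ, List.map_cons, List.prod_cons,
    List.finRange_succ, List.map_cons, List.map_cons, List.prod_cons, ← mul_assoc]
  rfl

theorem nonorientable_tf (k : ℕ) (s : PresentedGroup {nonorientableRelator (k + 2)})
    (hs : IsOfFinOrder s) : s = 1 := by
  classical
  let χ : FreeGroup (Fin (k + 2)) →* Multiplicative ℤ :=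
    FreeGroup.lift (fun i => if i = 1 then Multiplicative.ofAdd 1 else 1)
  have hne : ∀ j : Fin k, j.succ.succ ≠ 1 := by
    intro j h
    have := congrArg Fin.val h
    simp at this
  have hχw : χ (wN k) = 1 := by
    rw [wN, map_list_prod, List.map_map]
    apply prod_one
    intro i hi
    obtain ⟨i', hi', rfl⟩ := List.mem_map.1 hi
    obtain ⟨j, -, rfl⟩ := List.mem_map.1 hi'
    simp [χ, hne j]
  have hR : (PresentedGroup.mk {nonorientableRelator (k + 2)})
      (FreeGroup.of 0 ^ 2 * FreeGroup.of 1 ^ 2 * wN k) = 1 := by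
    rw [← relN]
    exact PresentedGroup.one_of_mem rfl
  let p : FreeGroup (Fin (k + 2)) →* PresentedGroup {nonorientableRelator (k + 2)} :=
    FreeGroup.lift (fun i => if i = 1 then PresentedGroup.of 0 * PresentedGroup.of 1
      else PresentedGroup.of i)
  have hpw : p (wN k) = PresentedGroup.mk {nonorientableRelator (k + 2)} (wN k) := by
    rw [wN]
    apply prod_congr'
    intro i hi
    obtain ⟨i', hi', rfl⟩ := List.mem_map.1 hi
    obtain ⟨j, -, rfl⟩ := List.mem_map.1 hi'
    simp only [map_pow, p, FreeGroup.lift_apply_of, if_neg (hne j)]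
    rfl
  refine tf_criterion (u := FreeGroup.of 1) (v := (wN k)⁻¹ * (FreeGroup.of 1)⁻¹)
    (inj_of χ (by left; simp [χ])) (inj_of χ (by right; rw [map_mul, map_inv, hχw]; simp [χ]))
    p (PresentedGroup.of 0) ?_ ?_ s hs
  · rw [map_mul, map_inv, map_inv, hpw]
    rw [map_mul] at hR
    have h2 := mul_eq_one_iff_eq_inv.1 hR
    rw [← h2]
    have e1 : p (FreeGroup.of 1) = PresentedGroup.of 0 * PresentedGroup.of 1 := by simp [p]
    rw [e1, map_mul, map_pow, map_pow]
    change PresentedGroup.of _ * (PresentedGroup.of _ * PresentedGroup.of _) =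
      PresentedGroup.of _ ^ 2 * PresentedGroup.of _ ^ 2 *
      (PresentedGroup.of _ * PresentedGroup.of _)⁻¹ * PresentedGroup.of _
    simp only [pow_two]
    group
  · intro M _ o τ h
    let gen : Fin (k + 2) → M :=
      fun i => if i = 0 then τ else if i = 1 then τ⁻¹ * o (FreeGroup.of 1) else o (FreeGroup.of i)
    have hne0 : ∀ j : Fin k, j.succ.succ ≠ 0 := fun j => Fin.succ_ne_zero _
    have hgw : FreeGroup.lift gen (wN k) = o (wN k) := by
      rw [wN]
      apply prod_congr'
      intro i hi
      obtain ⟨i', hi', rfl⟩ := List.mem_map.1 hi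
      obtain ⟨j, -, rfl⟩ := List.mem_map.1 hi'
      simp only [map_pow, gen, FreeGroup.lift_apply_of, if_neg (hne j),
        if_neg (hne0 j)]
    have hrel : ∀ r ∈ ({nonorientableRelator (k + 2)} : Set (FreeGroup (Fin (k + 2)))),
        FreeGroup.lift gen r = 1 := by
      rintro r rfl
      rw [relN, map_mul, map_mul, map_pow, map_pow, hgw]
      simp only [FreeGroup.lift_apply_of]
      have e1 : gen 0 = τ := by simp [gen]
      have e2 : gen 1 = τ⁻¹ * o (FreeGroup.of 1) := by simp [gen]
      rw [e1, e2]
      have h3 : τ ^ 2 * (τ⁻¹ * o (FreeGroup.of 1)) ^ 2 * o (wN k) =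
          (τ * o (FreeGroup.of 1)) * τ⁻¹ * o (FreeGroup.of 1) * o (wN k) := by
        simp only [pow_two]
        group
      rw [h3, h, map_mul, map_inv, map_inv]
      group
    refine ⟨PresentedGroup.toGroup hrel, fun l hl ht s => ?_⟩
    have : l.comp (PresentedGroup.toGroup hrel) = MonoidHom.id _ := by
      apply PresentedGroup.ext
      intro i
      rw [MonoidHom.comp_apply, PresentedGroup.toGroup.of, MonoidHom.id_apply]
      by_cases hi : i = 0
      · simp only [gen, hi, if_true, ht]
      · by_cases hi1 : i = 1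
        · simp only [gen, if_neg hi]
          rw [if_pos hi1, map_mul, map_inv, ht, hl, hi1]
          simp [p]
        · simp only [gen, if_neg hi]
          rw [if_neg hi1, hl]
          simp [p, hi1]
    exact DFunLike.congr_fun this s

theorem orientable_zero : Finite (PresentedGroup {orientableRelator 0}) := by
  have : ∀ s : PresentedGroup {orientableRelator 0}, s = 1 := by
    intro s
    obtain ⟨w, rfl⟩ := PresentedGroup.mk_surjective _ s
    have : w = 1 := Subsingleton.elim _ _
    rw [this, map_one]
  have hsub : Subsingleton (PresentedGroup {orientableRelator 0}) :=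
    ⟨fun a b => by rw [this a, this b]⟩
  infer_instance

theorem nonorientable_one : Finite (PresentedGroup {nonorientableRelator 1}) := by
  have hR : (PresentedGroup.of 0 : PresentedGroup {nonorientableRelator 1}) *
      PresentedGroup.of 0 = 1 := by
    have h : (PresentedGroup.mk {nonorientableRelator 1}) (nonorientableRelator 1) = 1 :=
      PresentedGroup.one_of_mem rfl
    have e : nonorientableRelator 1 = FreeGroup.of 0 * FreeGroup.of 0 := by
      rw [nonorientableRelator, List.finRange_succ]
      simp [pow_two]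
    conv at h => lhs; arg 2; rw [e]
    rw [map_mul] at h
    exact h
  have key : ∀ s : PresentedGroup {nonorientableRelator 1},
      s ∈ ({1, PresentedGroup.of 0} : Set (PresentedGroup {nonorientableRelator 1})) := by
    intro s
    obtain ⟨w, rfl⟩ := PresentedGroup.mk_surjective _ s
    have hinv : (PresentedGroup.of 0 : PresentedGroup {nonorientableRelator 1})⁻¹ =
        PresentedGroup.of 0 := inv_eq_of_mul_eq_one_left hR
    induction w using FreeGroup.induction_on with
    | C1 => simp
    | of x =>
      have : x = 0 := Subsingleton.elim _ _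
      subst this
      right; rfl
    | inv_of x _ =>
      have : x = 0 := Subsingleton.elim _ _
      subst this
      right
      rw [map_inv]
      exact hinv
    | mul x y hx hy =>
      rw [map_mul]
      rcases hx with hx | hx <;> rcases hy with hy | hy <;> rw [hx, hy]
      · simp
      · simp
      · simp
      · left; exact hR
  exact Set.finite_univ_iff.1 ((Set.toFinite _).subset (fun s _ => key s))

theorem surface_cases {H : Type} [Group H] (h : IsSurfaceGroup H) :
    Finite H ∨ ∀ s : H, IsOfFinOrder s → s = 1 := by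
  have key : ∀ {S : Type} [Group S], (H ≃* S) → (∀ s : S, IsOfFinOrder s → s = 1) →
      ∀ s : H, IsOfFinOrder s → s = 1 := by
    intro S _ e hS s hs
    have := hS (e s) (e.toMonoidHom.isOfFinOrder hs)
    rw [← map_one e] at this
    exact e.injective this
  rcases h with ⟨g, ⟨e⟩⟩ | ⟨k, hk, ⟨e⟩⟩
  · rcases g with _ | g
    · left
      have := orientable_zero
      exact Finite.of_equiv _ e.symm.toEquiv
    · right
      exact key e (orientable_tf g)
  · rcases k with _ | _ | k
    · omega
    · left
      have := nonorientable_one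
      exact Finite.of_equiv _ e.symm.toEquiv
    · right
      exact key e (nonorientable_tf k)

theorem not_surface : ¬ VirtuallySurface G := by
  rintro ⟨H, hfi, hS⟩
  rcases surface_cases hS with h | h
  · have h1 := H.card_mul_index
    rw [Nat.card_eq_zero_of_infinite (α := G)] at h1
    rcases Nat.mul_eq_zero.1 h1 with h2 | h2
    · exact absurd h2 (Nat.card_pos).ne'
    · exact hfi.index_ne_zero h2
  · have := H.fintypeQuotientOfFiniteIndex
    obtain ⟨i, j, hij, he⟩ := Finite.exists_ne_map_eq_of_infinite
      (fun i : ℕ => (QuotientGroup.mk (SemidirectProduct.inr (eC i) : G) : G ⧸ H))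
    rw [QuotientGroup.eq] at he
    have h1 : ((SemidirectProduct.inr (eC i) : G))⁻¹ * SemidirectProduct.inr (eC j) =
        SemidirectProduct.inr ((eC i)⁻¹ * eC j) := by
      rw [map_mul, map_inv]
    have h2 : IsOfFinOrder (((SemidirectProduct.inr (eC i) : G))⁻¹ *
        SemidirectProduct.inr (eC j)) := by
      rw [h1]
      exact finOrder_inr (by simp [eC])
    have h3 := h ⟨_, he⟩ (by
      obtain ⟨n, hn, hn1⟩ := isOfFinOrder_iff_pow_eq_one.1 h2
      exact isOfFinOrder_iff_pow_eq_one.2 ⟨n, hn, Subtype.ext hn1⟩)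
    have h4 := congrArg Subtype.val h3
    have h5 : (SemidirectProduct.inr ((eC i)⁻¹ * eC j) : G) = 1 := by rw [← h1]; exact h4
    rw [← map_one (SemidirectProduct.inr : Lam →* G)] at h5
    exact hij (eC_inj (inv_mul_eq_one.1 (SemidirectProduct.inr_injective h5)))

end Pool.Agent.W392
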