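import Mathlib
import Pool.Agent.W785.DF.Stubs
import Pool.Agent.H459R3.NS.Evo

/-!
Fourier coefficients of admissible forces: decay in time and approximation by finitely many smooth
functions of the time.
-/

open MeasureTheory Set
open scoped ContDiff InnerProductSpace

namespace Pool.Agent.W392.DFForce

open Pool.Agent.W785.DF
open H459R3.NS (V K3 Per pd fr ee SP cube fc)

/-! ### slices -/

theorem smooth_comp {f : ℝ → V → V} (hf : IsForce f) (i : Fin 3) :
    ContDiffOn ℝ ∞ (fun z : ℝ × V => f z.1 z.2 i) (Ici 0 ×ˢ univ) :=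
  contDiffOn_pi.1 hf.smooth i

theorem smooth_Ico {f : ℝ → V → V} (hf : IsForce f) (i : Fin 3) (T : ℝ) :
    ContDiffOn ℝ ∞ (fun z : ℝ × V => f z.1 z.2 i) (Ico 0 T ×ˢ univ) :=
  (smooth_comp hf i).mono (prod_mono (fun _ h => h.1) subset_rfl)

theorem sp {f : ℝ → V → V} (hf : IsForce f) {t : ℝ} (ht : 0 ≤ t) (i : Fin 3) :
    SP (fun x => f t x i) where
  smooth := H459R3.NS.contDiff_slice (T := t + 1) (f := fun s x => f s x i)
    (smooth_Ico hf i (t + 1)) ⟨ht, by linarith⟩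
  per := fun j x => by simp only [hf.per t ht j x]

theorem absf_le {f : ℝ → V → V} (hf : IsForce f) : ∃ C : ℝ, 0 ≤ C ∧ ∀ t, 0 ≤ t → ∀ x i,
    |f t x i| ≤ C / (1 + t) ^ 2 := by
  obtain ⟨C, hC⟩ := hf.decay 0 2
  refine ⟨|C|, abs_nonneg _, fun t ht x i => ?_⟩
  have h1 := hC t ht x
  rw [norm_iteratedFDerivWithin_zero] at h1
  have h2 : |f t x i| ≤ ‖f t x‖ := by
    rw [← Real.norm_eq_abs]; exact norm_le_pi_norm (f t x) i
  have h3 : (0 : ℝ) < (1 + t) ^ 2 := by positivity
  rw [le_div_iff₀ h3]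
  calc |f t x i| * (1 + t) ^ 2 ≤ ‖f t x‖ * (1 + t) ^ 2 := by gcongr
    _ = (1 + t) ^ 2 * ‖f t x‖ := mul_comm _ _
    _ ≤ C := h1
    _ ≤ |C| := le_abs_self _

theorem pd_le {f : ℝ → V → V} (hf : IsForce f) : ∃ C : ℝ, 0 ≤ C ∧ ∀ t, 0 ≤ t → ∀ x i j,
    |pd j (fun x => f t x i) x| ≤ C := by
  obtain ⟨C, hC⟩ := hf.decay 1 0
  refine ⟨|C|, abs_nonneg _, fun t ht x i j => ?_⟩
  have h1 := hC t ht x
  have hu : UniqueDiffWithinAt ℝ (Ici (0 : ℝ) ×ˢ (univ : Set V)) (t, x) :=
    ((uniqueDiffOn_Ici 0).prod uniqueDiffOn_univ) (t, x) ⟨ht, mem_univ _⟩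
  rw [pow_zero, one_mul, norm_iteratedFDerivWithin_one _ hu] at h1
  set L := fderivWithin ℝ (fun z : ℝ × V => f z.1 z.2) (Ici 0 ×ˢ univ) (t, x) with hL
  have h2 : HasFDerivWithinAt (fun z : ℝ × V => f z.1 z.2) L (Ici 0 ×ˢ univ) (t, x) :=
    ((hf.smooth.differentiableOn (by norm_cast)) (t, x) ⟨ht, mem_univ _⟩).hasFDerivWithinAt
  have h3 : HasFDerivAt (fun y : V => ((t, y) : ℝ × V)) (ContinuousLinearMap.inr ℝ ℝ V) x :=
    hasFDerivAt_prodMk_right t x
  have h4 : HasFDerivWithinAt (fun y : V => f t y)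
      (L.comp (ContinuousLinearMap.inr ℝ ℝ V)) univ x :=
    HasFDerivWithinAt.comp (g := fun z : ℝ × V => f z.1 z.2) (t := Ici 0 ×ˢ univ) x h2
      h3.hasFDerivWithinAt (fun y _ => ⟨ht, mem_univ _⟩)
  rw [hasFDerivWithinAt_univ] at h4
  have h5 : HasFDerivAt (fun y : V => f t y i)
      ((ContinuousLinearMap.proj i).comp (L.comp (ContinuousLinearMap.inr ℝ ℝ V))) x :=
    (hasFDerivAt_pi'.1 h4) i
  unfold pd
  rw [h5.fderiv]
  have e : ((ContinuousLinearMap.proj (R := ℝ) (φ := fun _ : Fin 3 => ℝ) i).comp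
      (L.comp (ContinuousLinearMap.inr ℝ ℝ V))) (Pi.single j 1) = L (0, Pi.single j 1) i := by
    simp
  rw [e]
  calc |L (0, Pi.single j 1) i| = ‖L (0, Pi.single j 1) i‖ := (Real.norm_eq_abs _).symm
    _ ≤ ‖L (0, Pi.single j 1)‖ := norm_le_pi_norm (L (0, Pi.single j 1)) i
    _ ≤ ‖L‖ * ‖((0, Pi.single j 1) : ℝ × V)‖ := L.le_opNorm _
    _ ≤ ‖L‖ * 1 := by
      gcongr
      rw [Prod.norm_def]
      refine max_le (by simp) ?_
      refine (pi_norm_le_iff_of_nonneg zero_le_one).2 fun l => ?_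
      change ‖(Pi.single j (1:ℝ) : V) l‖ ≤ 1; rw [Pi.single_apply]
      split_ifs <;> simp
    _ ≤ C := by rw [mul_one]; exact h1
    _ ≤ |C| := le_abs_self _

/-! ### Bessel's inequality -/

theorem bessel {g : V → ℝ} (hg : SP g) {B : ℝ} (hB : ∀ x, |g x| ≤ B) (G : Finset K3) :
    ∑ k ∈ G, ‖fr g k‖ ^ 2 ≤ B ^ 2 := by
  have h1 : ∑ k ∈ G, ‖fr g k‖ ^ 2 ≤ ∑' k, ‖fr g k‖ ^ 2 :=
    (H459R3.NS.summable_sq (H459R3.NS.rap_fr hg).summable).sum_le_tsum G
      (fun _ _ => by positivity)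
  rw [← H459R3.NS.n2_sq, H459R3.NS.n2_fr hg] at h1
  refine h1.trans ?_
  have := H459R3.NS.cube_finite
  have h2 : ∫ x in cube, g x ^ 2 ≤ ∫ x in cube, B ^ 2 := by
    refine integral_mono (H459R3.NS.integrableOn_cube (hg.smooth.continuous.pow 2))
      (integrable_const _) fun x => ?_
    have := hB x
    have h0 := abs_nonneg (g x)
    simp only
    rw [← sq_abs]
    gcongr
  refine h2.trans (le_of_eq ?_)
  rw [integral_const, measureReal_restrict_apply_univ]
  simp [Measure.real, H459R3.NS.volume_cube]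

theorem bessel1 {g : V → ℝ} (hg : SP g) {B : ℝ} (hB : ∀ j x, |pd j g x| ≤ B) (G : Finset K3) :
    ∑ k ∈ G, W785.DF.sq k * ‖fr g k‖ ^ 2 ≤ B ^ 2 := by
  have h1 : ∀ j, ∑ k ∈ G, ‖fr (pd j g) k‖ ^ 2 ≤ B ^ 2 := fun j => bessel (hg.pd j) (hB j) G
  have h2 : ∀ j k, ‖fr (pd j g) k‖ ^ 2 = 4 * Real.pi ^ 2 * ((k j : ℝ) ^ 2 * ‖fr g k‖ ^ 2) := by
    intro j k
    rw [H459R3.NS.fr_pd hg, H459R3.NS.D, norm_mul, norm_mul, norm_mul, norm_mul, Complex.norm_I,
      mul_one, Complex.norm_real, Real.norm_eq_abs, abs_of_pos Real.pi_pos, Complex.norm_ofNat,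
      Complex.norm_intCast, mul_pow, mul_pow, mul_pow, sq_abs]
    ring
  have h3 : 4 * Real.pi ^ 2 * ∑ k ∈ G, W785.DF.sq k * ‖fr g k‖ ^ 2 = ∑ j, ∑ k ∈ G, ‖fr (pd j g) k‖ ^ 2 := by
    rw [Finset.sum_comm, Finset.mul_sum]
    refine Finset.sum_congr rfl fun k _ => ?_
    rw [W785.DF.sq, Finset.sum_mul, Finset.mul_sum]
    exact Finset.sum_congr rfl fun j _ => (h2 j k).symm
  have h4 : ∑ j, ∑ k ∈ G, ‖fr (pd j g) k‖ ^ 2 ≤ 3 * B ^ 2 := by
    refine (Finset.sum_le_sum fun j _ => h1 j).trans (le_of_eq ?_)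
    simp
  have h5 : 0 ≤ ∑ k ∈ G, W785.DF.sq k * ‖fr g k‖ ^ 2 :=
    Finset.sum_nonneg fun k _ => mul_nonneg (Finset.sum_nonneg fun j _ => sq_nonneg _) (by positivity)
  have := Real.pi_gt_three
  nlinarith [sq_nonneg B, sq_nonneg (Real.pi - 3)]

theorem fbound : S_fbound := by
  intro f hf
  obtain ⟨C, hC0, hC⟩ := absf_le hf
  refine ⟨2 * C + 1, by positivity, fun t ht G => ?_⟩
  rw [Finset.sum_comm]
  have h1 : ∀ i, ∑ k ∈ G, ‖fr (fun x => f t x i) k‖ ^ 2 ≤ (C / (1 + t) ^ 2) ^ 2 := fun i =>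
    bessel (sp hf ht i) (fun x => hC t ht x i) G
  refine (Finset.sum_le_sum fun i _ => h1 i).trans ?_
  simp only [Finset.sum_const, Finset.card_univ, Fintype.card_fin, nsmul_eq_mul]
  have h2 : (0 : ℝ) < (1 + t) ^ 2 := by positivity
  rw [div_pow, div_pow, ← mul_div_assoc]
  gcongr
  push_cast
  nlinarith

/-! ### tails -/

/-- the box of frequencies -/
noncomputable def box (M : ℕ) : Finset K3 := Finset.Icc (fun _ => -(M : ℤ)) (fun _ => (M : ℤ))

theorem le_sq_of_not_mem {M : ℕ} {k : K3} (hk : k ∉ box M) : (M : ℝ) ^ 2 ≤ W785.DF.sq k := by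
  have h1 : ∃ j, (M : ℤ) < |k j| := by
    by_contra hcon
    push Not at hcon
    apply hk
    rw [box, Finset.mem_Icc]
    exact ⟨fun j => (abs_le.1 (hcon j)).1, fun j => (abs_le.1 (hcon j)).2⟩
  obtain ⟨j, hj⟩ := h1
  have h2 : (M : ℝ) ^ 2 ≤ (k j : ℝ) ^ 2 := by
    rw [← sq_abs (k j : ℝ)]
    have : (M : ℝ) ≤ |(k j : ℝ)| := by exact_mod_cast hj.le
    gcongr
  exact h2.trans (Finset.single_le_sum (f := fun l => (k l : ℝ) ^ 2) (fun l _ => sq_nonneg _)
    (Finset.mem_univ j))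

theorem tail {g : V → ℝ} (hg : SP g) {B : ℝ} (hB : ∀ j x, |pd j g x| ≤ B) (M : ℕ) (G : Finset K3)
    (hG : ∀ k ∈ G, k ∉ box M) : (M : ℝ) ^ 2 * ∑ k ∈ G, ‖fr g k‖ ^ 2 ≤ B ^ 2 := by
  refine le_trans ?_ (bessel1 hg hB G)
  rw [Finset.mul_sum]
  refine Finset.sum_le_sum fun k hk => ?_
  have := le_sq_of_not_mem (hG k hk)
  gcongr

/-! ### continuity in time -/

theorem fr_re {g : V → ℝ} (hg : Continuous g) (k : K3) :
    (fr g k).re = ∫ x in cube, (ee (-k) x).re * g x := by
  have hc : Continuous (fun x => ee (-k) x * (g x : ℂ)) :=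
    (H459R3.NS.ee_continuous _).mul (Complex.continuous_ofReal.comp hg)
  have h := Complex.reCLM.integral_comp_comm (H459R3.NS.integrableOn_cube hc)
  unfold fr fc
  rw [← Complex.reCLM_apply, ← h]
  congr 1
  funext x
  simp

theorem fr_im {g : V → ℝ} (hg : Continuous g) (k : K3) :
    (fr g k).im = ∫ x in cube, (ee (-k) x).im * g x := by
  have hc : Continuous (fun x => ee (-k) x * (g x : ℂ)) :=
    (H459R3.NS.ee_continuous _).mul (Complex.continuous_ofReal.comp hg)
  have h := Complex.imCLM.integral_comp_comm (H459R3.NS.integrableOn_cube hc)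
  unfold fr fc
  rw [← Complex.imCLM_apply, ← h]
  congr 1
  funext x
  simp

theorem fr_neg {g : V → ℝ} (hg : Continuous g) (k : K3) : fr g (-k) = star (fr g k) := by
  apply Complex.ext
  · rw [fr_re hg, Complex.star_def, Complex.conj_re, fr_re hg]
    congr 1
    funext x
    rw [H459R3.NS.ee_neg (-k) x, Complex.conj_re]
  · rw [fr_im hg, Complex.star_def, Complex.conj_im, fr_im hg, ← integral_neg]
    congr 1
    funext x
    rw [H459R3.NS.ee_neg (-k) x, Complex.conj_im]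
    ring

theorem cont_re {f : ℝ → V → V} (hf : IsForce f) (T : ℝ) (i : Fin 3) (k : K3) :
    ContinuousOn (fun t => (fr (fun x => f t x i) k).re) (Icc 0 T) := by
  have h1 := H459R3.NS.continuousOn_int (T := T + 1) (F := fun s x => (ee (-k) x).re * f s x i)
    (by
      refine ContinuousOn.mul ?_ (smooth_Ico hf i (T + 1)).continuousOn
      exact (Complex.continuous_re.comp ((H459R3.NS.ee_continuous _).comp
        continuous_snd)).continuousOn)
  refine (h1.mono fun t ht => ⟨ht.1, ht.2.trans_lt (by linarith)⟩).congr fun t ht => ?_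
  exact fr_re (sp hf ht.1 i).smooth.continuous k

theorem cont_im {f : ℝ → V → V} (hf : IsForce f) (T : ℝ) (i : Fin 3) (k : K3) :
    ContinuousOn (fun t => (fr (fun x => f t x i) k).im) (Icc 0 T) := by
  have h1 := H459R3.NS.continuousOn_int (T := T + 1) (F := fun s x => (ee (-k) x).im * f s x i)
    (by
      refine ContinuousOn.mul ?_ (smooth_Ico hf i (T + 1)).continuousOn
      exact (Complex.continuous_im.comp ((H459R3.NS.ee_continuous _).comp
        continuous_snd)).continuousOn)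
  refine (h1.mono fun t ht => ⟨ht.1, ht.2.trans_lt (by linarith)⟩).congr fun t ht => ?_
  exact fr_im (sp hf ht.1 i).smooth.continuous k

theorem polyC (p : Polynomial ℝ) : ContDiff ℝ ∞ (fun t => p.eval t) := by
  have e : (fun t => p.eval t) = fun t => ∑ n ∈ p.support, p.coeff n * t ^ n := by
    funext t
    rw [Polynomial.eval_eq_sum, Polynomial.sum]
  rw [e]
  exact ContDiff.sum fun n _ => contDiff_const.mul (contDiff_id.pow n)

/-- Approximation of one coefficient by a smooth function. -/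
theorem approx {f : ℝ → V → V} (hf : IsForce f) (T : ℝ) {δ : ℝ} (hδ : 0 < δ) (i : Fin 3) (k : K3) :
    ∃ q : ℝ → ℂ, ContDiff ℝ ∞ q ∧ ∀ t ∈ Icc 0 T, ‖q t - fr (fun x => f t x i) k‖ ≤ δ := by
  obtain ⟨p, hp⟩ := exists_polynomial_near_of_continuousOn 0 T _ (cont_re hf T i k) (δ / 2)
    (by positivity)
  obtain ⟨r, hr⟩ := exists_polynomial_near_of_continuousOn 0 T _ (cont_im hf T i k) (δ / 2)
    (by positivity)
  refine ⟨fun t => ((p.eval t : ℝ) : ℂ) + ((r.eval t : ℝ) : ℂ) * Complex.I, ?_, fun t ht => ?_⟩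
  · exact (Complex.ofRealCLM.contDiff.comp (polyC p)).add
      ((Complex.ofRealCLM.contDiff.comp (polyC r)).mul contDiff_const)
  · refine (Complex.norm_le_abs_re_add_abs_im _).trans ?_
    have h1 := (hp t ht).le
    have h2 := (hr t ht).le
    simp only [Complex.sub_re, Complex.add_re, Complex.ofReal_re, Complex.mul_re, Complex.I_re,
      mul_zero, Complex.ofReal_im, Complex.I_im, sub_self, add_zero, Complex.sub_im, Complex.add_im,
      Complex.mul_im, mul_one, zero_add]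
    linarith

theorem force : S_force := by
  intro f hf T η hT hη
  obtain ⟨C, hC0, hC⟩ := pd_le hf
  obtain ⟨M, hM⟩ := exists_nat_ge (2 * (C + 1) / η * 2)
  have hM' : 4 * (C + 1) ≤ M * η := by
    rw [div_mul_eq_mul_div, div_le_iff₀ hη] at hM
    linarith
  have hMpos : (0 : ℝ) < M := by
    by_contra hcon
    have : (M : ℝ) * η ≤ 0 := mul_nonpos_of_nonpos_of_nonneg (not_lt.1 hcon) hη.le
    linarith
  refine ⟨box M, fun S hS hS0 => ?_⟩
  set A : Finset K3 := insert 0 S with hA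
  have hAneg : ∀ k, -k ∈ A ↔ k ∈ A := by
    have h1 : ∀ k, k ∈ A → -k ∈ A := by
      intro k hk
      rw [hA, Finset.mem_insert] at hk ⊢
      rcases hk with rfl | hk
      · left; simp
      · right; exact hS.neg k hk
    intro k
    refine ⟨fun h => ?_, h1 k⟩
    have := h1 _ h
    rwa [neg_neg] at this
  -- the error for one coefficient
  obtain ⟨δ, hδ, hδA⟩ : ∃ δ : ℝ, 0 < δ ∧ (A.card : ℝ) * (3 * δ ^ 2) ≤ η ^ 2 / 2 := by
    refine ⟨η / (3 * (A.card + 1)), by positivity, ?_⟩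
    have h1 : (0 : ℝ) < (A.card : ℝ) + 1 := by positivity
    have e : (A.card : ℝ) * (3 * (η / (3 * (A.card + 1))) ^ 2)
        = η ^ 2 * ((A.card : ℝ) / (3 * (A.card + 1) ^ 2)) := by
      field_simp
    rw [e]
    have h2 : (A.card : ℝ) / (3 * (A.card + 1) ^ 2) ≤ 1 / 2 := by
      rw [div_le_div_iff₀ (by positivity) (by norm_num)]
      nlinarith
    calc η ^ 2 * ((A.card : ℝ) / (3 * (A.card + 1) ^ 2)) ≤ η ^ 2 * (1 / 2) := by gcongr
      _ = η ^ 2 / 2 := by ring
  choose q hq1 hq2 using fun (k : K3) (i : Fin 3) => approx hf T hδ i k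
  set ψ : ℝ → K3 → E3 := fun t k => if k ∈ A then
    WithLp.toLp 2 (fun i => (q k i t + star (q (-k) i t)) / 2) else 0 with hψ
  have hψA : ∀ t, ∀ k ∈ A, ∀ i, ψ t k i = (q k i t + star (q (-k) i t)) / 2 := by
    intro t k hk i
    simp only [hψ, if_pos hk]
  have hψn : ∀ t, ∀ k, k ∉ A → ψ t k = 0 := by
    intro t k hk
    simp only [hψ, if_neg hk]
  refine ⟨ψ, fun k => ?_, fun t k => ?_, hψn, fun t ht G => ?_⟩
  · by_cases hk : k ∈ A
    · rw [contDiff_piLp]
      intro i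
      have e : (fun t => ψ t k i) = fun t => (q k i t + star (q (-k) i t)) / 2 :=
        funext fun t => hψA t k hk i
      rw [e]
      refine ContDiff.div_const ((hq1 k i).add ?_) 2
      exact Complex.conjCLE.contDiff.comp (hq1 (-k) i)
    · have e : (fun t => ψ t k) = fun _ => 0 := funext fun t => hψn t k hk
      rw [e]
      exact contDiff_const
  · by_cases hk : k ∈ A
    · have hk' : -k ∈ A := (hAneg k).2 hk
      ext i
      rw [hψA t _ hk' i, neg_neg]
      have e : (cj (ψ t k)) i = star (ψ t k i) := rfl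
      rw [e, hψA t k hk i]
      simp only [Complex.star_def, map_div₀, map_add, Complex.conj_conj, map_ofNat]
      rw [add_comm]
    · have hk' : -k ∉ A := fun h => hk ((hAneg k).1 h)
      rw [hψn t _ hk', hψn t _ hk]
      ext i
      have e : (cj (0 : E3)) i = star ((0 : E3) i) := rfl
      rw [e]
      simp
  · -- the estimate
    rw [← Finset.sum_filter_add_sum_filter_not G (fun k => k ∈ A)]
    have h1 : ∑ k ∈ G with k ∈ A, ∑ i, ‖ψ t k i - fr (fun x => f t x i) k‖ ^ 2 ≤ η ^ 2 / 2 := by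
      have hb : ∀ k ∈ G.filter (fun k => k ∈ A),
          ∑ i, ‖ψ t k i - fr (fun x => f t x i) k‖ ^ 2 ≤ 3 * δ ^ 2 := by
        intro k hk
        have hkA := (Finset.mem_filter.1 hk).2
        have hb1 : ∀ i, ‖ψ t k i - fr (fun x => f t x i) k‖ ≤ δ := by
          intro i
          rw [hψA t k hkA i]
          have hcg : Continuous (fun x => f t x i) := (sp hf ht.1 i).smooth.continuous
          have a1 := hq2 k i t ht
          have a2 := hq2 (-k) i t ht
          rw [fr_neg hcg] at a2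
          have a3 : ‖star (q (-k) i t) - fr (fun x => f t x i) k‖ ≤ δ := by
            rw [← norm_star, star_sub, star_star]
            exact a2
          have e : (q k i t + star (q (-k) i t)) / 2 - fr (fun x => f t x i) k
              = ((q k i t - fr (fun x => f t x i) k)
                + (star (q (-k) i t) - fr (fun x => f t x i) k)) / 2 := by ring
          rw [e, norm_div, Complex.norm_ofNat, div_le_iff₀ (by norm_num)]
          refine (norm_add_le _ _).trans ?_
          linarith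
        calc ∑ i, ‖ψ t k i - fr (fun x => f t x i) k‖ ^ 2 ≤ ∑ _i : Fin 3, δ ^ 2 :=
              Finset.sum_le_sum fun i _ => by
                have := hb1 i
                gcongr
          _ = 3 * δ ^ 2 := by simp
      refine (Finset.sum_le_sum hb).trans ?_
      rw [Finset.sum_const, nsmul_eq_mul]
      refine le_trans ?_ hδA
      have hcard : ((G.filter (fun k => k ∈ A)).card : ℝ) ≤ A.card := by
        exact_mod_cast Finset.card_le_card fun k hk => (Finset.mem_filter.1 hk).2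
      gcongr
    have h2 : ∑ k ∈ G with k ∉ A, ∑ i, ‖ψ t k i - fr (fun x => f t x i) k‖ ^ 2 ≤ η ^ 2 / 2 := by
      have e : ∑ k ∈ G with k ∉ A, ∑ i, ‖ψ t k i - fr (fun x => f t x i) k‖ ^ 2
          = ∑ i, ∑ k ∈ G with k ∉ A, ‖fr (fun x => f t x i) k‖ ^ 2 := by
        rw [Finset.sum_comm]
        refine Finset.sum_congr rfl fun i _ => Finset.sum_congr rfl fun k hk => ?_
        rw [hψn t k (Finset.mem_filter.1 hk).2]
        simp
      rw [e]
      have h3 : ∀ i, ∑ k ∈ G with k ∉ A, ‖fr (fun x => f t x i) k‖ ^ 2 ≤ η ^ 2 / 16 := by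
        intro i
        have h4 := tail (sp hf ht.1 i) (fun j x => hC t ht.1 x i j) M (G.filter fun k => k ∉ A)
          (fun k hk hk2 => (Finset.mem_filter.1 hk).2 (hS0 hk2))
        set X := ∑ k ∈ G with k ∉ A, ‖fr (fun x => f t x i) k‖ ^ 2 with hX
        have hX0 : 0 ≤ X := Finset.sum_nonneg fun _ _ => by positivity
        have h5 : 16 * (C + 1) ^ 2 ≤ M ^ 2 * η ^ 2 := by
          have h6 : (4 * (C + 1)) ^ 2 ≤ (M * η) ^ 2 := by gcongr
          nlinarith
        have h7 : (M : ℝ) ^ 2 * X ≤ M ^ 2 * (η ^ 2 / 16) := by nlinarith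
        exact le_of_mul_le_mul_left h7 (by positivity)
      refine (Finset.sum_le_sum fun i _ => h3 i).trans ?_
      simp only [Finset.sum_const, Finset.card_univ, Fintype.card_fin, nsmul_eq_mul]
      push_cast
      nlinarith [sq_nonneg η]
    linarith

theorem main : S_fbound ∧ S_force := ⟨fbound, force⟩

end Pool.Agent.W392.DFForce
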