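import Pool.Agent.W868.FI.Stms

/-! Patching couplings of iid fields over disjoint sets. -/

open Pool.Agent.W868.FI MeasureTheory Set

namespace Pool.Agent.W392.FIPatch

/-- diagonal law: choosing at each site one of finitely many independent iid fields -/
theorem diag {ι O A : Type} [Fintype O] [MeasurableSpace A] (α : Measure A)
    [IsProbabilityMeasure α] (j : ι → O) :
    (Measure.pi (fun _ : O => iid ι α)).map (fun (ω : O → ι → A) (g : ι) => ω (j g) g)
      = iid ι α := by
  classical
  unfold iid
  refine Measure.eq_infinitePi _ ?_
  intro s t ht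
  have hm : Measurable (fun (ω : O → ι → A) (g : ι) => ω (j g) g) := by
    refine measurable_pi_lambda _ fun g => ?_
    exact (measurable_pi_apply g).comp (measurable_pi_apply (j g))
  rw [Measure.map_apply hm (MeasurableSet.pi s.countable_toSet (fun i _ => ht i))]
  have hpre : (fun (ω : O → ι → A) (g : ι) => ω (j g) g) ⁻¹' (Set.pi (s : Set ι) t)
      = Set.pi univ (fun o : O => Set.pi ((s.filter (fun g => j g = o) : Finset ι) : Set ι) t) := by
    ext ω
    simp only [mem_preimage, Set.mem_pi, Finset.mem_coe, mem_univ, Finset.mem_filter, true_implies]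
    constructor
    · rintro h o g ⟨hg, rfl⟩
      exact h g hg
    · intro h g hg
      exact h (j g) g ⟨hg, rfl⟩
  rw [hpre, Measure.pi_pi]
  rw [← Finset.prod_fiberwise s j]
  refine Finset.prod_congr rfl fun o _ => ?_
  rw [Measure.infinitePi_pi]
  intro i _
  exact ht i

theorem diag' {ι O A X : Type} [Fintype O] [MeasurableSpace A] [MeasurableSpace X] (α : Measure A)
    [IsProbabilityMeasure α] (j : ι → O) (M : O → Measure X) [∀ o, IsProbabilityMeasure (M o)]
    (f : X → ι → A) (hf : Measurable f) (hM : ∀ o, (M o).map f = iid ι α) :
    (Measure.pi M).map (fun (ξ : O → X) (g : ι) => f (ξ (j g)) g) = iid ι α := by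
  have h1 : (Measure.pi M).map (fun (ξ : O → X) (o : O) => f (ξ o))
      = Measure.pi (fun _ : O => iid ι α) := by
    have : ∀ o, SigmaFinite ((M o).map f) := by
      intro o
      rw [hM o]
      infer_instance
    rw [Measure.pi_map_pi (f := fun _ => f) (fun _ => hf.aemeasurable)]
    congr 1
    funext o
    exact hM o
  rw [← diag α j, ← h1, Measure.map_map]
  · rfl
  · refine measurable_pi_lambda _ fun g => ?_
    exact (measurable_pi_apply g).comp (measurable_pi_apply (j g))
  · refine measurable_pi_lambda _ fun o => ?_
    exact hf.comp (measurable_pi_apply o)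

theorem patch : S_PATCH := by
  classical
  intro ι I A B _ _ _ _ α _ β _ C hC Λ h1 h2
  have hP : ∀ i, IsProbabilityMeasure (Λ i) := by
    intro i
    have : IsProbabilityMeasure ((Λ i).map Prod.fst) := by
      rw [h1 i]; infer_instance
    exact Measure.isProbabilityMeasure_of_map (μ := Λ i) Prod.fst
  let M : Option I → Measure ((ι → A) × (ι → B)) :=
    fun o => o.elim ((iid ι α).prod (iid ι β)) Λ
  have hMP : ∀ o, IsProbabilityMeasure (M o) := by
    intro o
    cases o with
    | none => exact (inferInstance : IsProbabilityMeasure ((iid ι α).prod (iid ι β)))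
    | some i => exact hP i
  have hM1 : ∀ o, (M o).map Prod.fst = iid ι α := by
    intro o
    cases o with
    | none =>
      change ((iid ι α).prod (iid ι β)).map Prod.fst = _
      rw [Measure.map_fst_prod]; simp
    | some i => exact h1 i
  have hM2 : ∀ o, (M o).map Prod.snd = iid ι β := by
    intro o
    cases o with
    | none =>
      change ((iid ι α).prod (iid ι β)).map Prod.snd = _
      rw [Measure.map_snd_prod]; simp
    | some i => exact h2 i
  let j : ι → Option I := fun g => if h : ∃ i, g ∈ C i then some h.choose else none
  have hj : ∀ i, ∀ g ∈ C i, j g = some i := by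
    intro i g hg
    have hex : ∃ i, g ∈ C i := ⟨i, hg⟩
    have : j g = some hex.choose := by
      simp only [j]
      rw [dif_pos hex]
    rw [this]
    congr 1
    by_contra hne
    exact Set.disjoint_left.mp (hC hne) hex.choose_spec hg
  refine ⟨Option I → (ι → A) × (ι → B), inferInstance, Measure.pi M,
    fun ξ => (fun g => (ξ (j g)).1 g, fun g => (ξ (j g)).2 g), fun i ξ => ξ (some i), ?_, ?_, ?_,
    ?_, ?_, ?_⟩
  · refine Measurable.prodMk ?_ ?_
    · refine measurable_pi_lambda _ fun g => ?_
      exact (measurable_pi_apply g).comp (measurable_fst.comp (measurable_pi_apply (j g)))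
    · refine measurable_pi_lambda _ fun g => ?_
      exact (measurable_pi_apply g).comp (measurable_snd.comp (measurable_pi_apply (j g)))
  · intro i
    exact measurable_pi_apply _
  · exact diag' α j M Prod.fst measurable_fst hM1
  · exact diag' β j M Prod.snd measurable_snd hM2
  · intro i
    exact (measurePreserving_eval M (some i)).map_eq
  · intro ξ i g hg
    simp only [hj i g hg, and_self]

end Pool.Agent.W392.FIPatch
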