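import Pool.Agent.W392.OneEnd
import Pool.Agent.Helper270.Tree

set_option autoImplicit false

/-! The group does not split over virtually infinite cyclic subgroups. -/

namespace Pool.Agent.W392

open SemidirectProduct Pool.Agent.Helper270.Tree

section General

variable {K V : Type} [Group K] [MulAction K V] {T : SimpleGraph V}

/-- Elements of finite order fix a vertex. -/
theorem fix_of_finOrder (h : TreeAct K T) {g : K} (hg : IsOfFinOrder g) : ∃ v : V, g • v = v := by
  by_contra hcon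
  push Not at hcon
  obtain ⟨L, l, hL⟩ := h.exists_axis hcon
  have h1 : ∀ n : ℕ, g ^ n • L 0 = L (n * l) := by
    intro n
    induction n with
    | zero => simp
    | succ n ih =>
      rw [pow_succ', mul_smul, ih, hL.smul]
      congr 1
      push_cast
      ring
  obtain ⟨n, hn, hn1⟩ := isOfFinOrder_iff_pow_eq_one.1 hg
  have h2 := h1 n
  rw [hn1, one_smul] at h2
  have h3 := hL.line.injective h.isTree h2
  have h4 := hL.pos
  have : (0 : ℤ) < n * l := by positivity
  omega

/-- Pigeonhole in a virtually infinite cyclic group. -/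
theorem pigeon {H : Subgroup K} {z : H} (hz : ¬ IsOfFinOrder z)
    (hfi : (Subgroup.zpowers z).FiniteIndex) (g : K)
    (u : Fin ((Subgroup.zpowers z).index + 1) → K)
    (hu : ∀ i j, i ≠ j → (u i)⁻¹ * u j ≠ 1 ∧ IsOfFinOrder ((u i)⁻¹ * u j))
    (hH : ∀ i, g⁻¹ * u i * g ∈ H) : False := by
  have := (Subgroup.zpowers z).fintypeQuotientOfFiniteIndex
  have hcard : Fintype.card (H ⧸ Subgroup.zpowers z) <
      Fintype.card (Fin ((Subgroup.zpowers z).index + 1)) := by
    rw [Fintype.card_fin, Subgroup.index_eq_card, Nat.card_eq_fintype_card]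
    omega
  obtain ⟨i, j, hij, he⟩ := Fintype.exists_ne_map_eq_of_card_lt
    (fun i => (QuotientGroup.mk (⟨g⁻¹ * u i * g, hH i⟩ : H) : H ⧸ Subgroup.zpowers z)) hcard
  rw [QuotientGroup.eq] at he
  obtain ⟨k, hk⟩ := Subgroup.mem_zpowers_iff.1 he
  have h1 : ((z ^ k : H) : K) = g⁻¹ * ((u i)⁻¹ * u j) * g := by
    rw [hk]
    push_cast
    group
  obtain ⟨h2, h3⟩ := hu i j hij
  obtain ⟨n, hn, hn1⟩ := isOfFinOrder_iff_pow_eq_one.1 h3
  have h4 : (z ^ k) ^ n = 1 := by
    apply Subtype.ext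
    push_cast
    rw [← Subgroup.coe_zpow, h1]
    have : ∀ w : K, (g⁻¹ * w * g) ^ n = g⁻¹ * w ^ n * g := by
      intro w
      have := conj_pow (a := g⁻¹) (b := w) (i := n)
      rwa [inv_inv] at this
    rw [this, hn1]
    simp
  rw [← zpow_natCast, ← zpow_mul] at h4
  have h5 : k * n = 0 := by
    by_contra hne
    apply hz
    rw [isOfFinOrder_iff_zpow_eq_one]
    exact ⟨k * n, hne, h4⟩
  have h6 : k = 0 := by
    rcases mul_eq_zero.1 h5 with h | h
    · exact h
    · omega
  rw [h6, zpow_zero] at h1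
  apply h2
  have h7 : g⁻¹ * ((u i)⁻¹ * u j) * g = 1 := by rw [← h1]; rfl
  have h8 : (u i)⁻¹ * u j = g * (g⁻¹ * ((u i)⁻¹ * u j) * g) * g⁻¹ := by group
  rw [h8, h7]
  simp

/-- The first edge of a geodesic. -/
theorem exists_next (hT : T.IsTree) {x y : V} (hxy : x ≠ y) :
    ∃ z, T.Adj x z ∧ T.dist x z + T.dist z y = T.dist x y := by
  obtain ⟨q, hq0, hqn, hadj, hd, -⟩ := exists_geod hT x y
  have hpos : 0 < T.dist x y := hT.connected.pos_dist_of_ne hxy
  refine ⟨q 1, ?_, ?_⟩
  · have := hadj 0 hpos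
    rwa [hq0] at this
  · have h1 := hd 1 (by omega)
    omega

end General

/-- The lamp at `i`. -/
noncomputable def lamp (i : ℕ) : G := inr ⟨{(i : ℤ)}, 0⟩

theorem inr_sq {g : Lam} (hg : g.j = 0) : (inr g : G) * inr g = 1 := by
  rw [← map_mul]
  have : g * g = 1 := by
    ext x
    · simp [hg]
    · simp [hg]
  rw [this, map_one]

theorem finOrder_inr {g : Lam} (hg : g.j = 0) : IsOfFinOrder (inr g : G) :=
  isOfFinOrder_iff_pow_eq_one.2 ⟨2, by norm_num, by rw [pow_two, inr_sq hg]⟩

theorem lamp_mul (i j : ℕ) : lamp i * lamp j = inr ⟨symmDiff {(i : ℤ)} {(j : ℤ)}, 0⟩ := by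
  rw [lamp, lamp, ← map_mul]
  congr 1

theorem lamp_inv (i : ℕ) : (lamp i)⁻¹ = lamp i := inv_eq_of_mul_eq_one_left (inr_sq rfl)

theorem lamp_inj {i j : ℕ} (h : i ≠ j) : (lamp i)⁻¹ * lamp j ≠ 1 := by
  rw [lamp_inv, lamp_mul, ← map_one (inr : Lam →* G)]
  intro hh
  have h1 := congrArg Lam.s (SemidirectProduct.inr_injective hh)
  have h2 : (i : ℤ) ∈ (1 : Lam).s := by
    rw [← h1, Finset.mem_symmDiff]
    left
    simp only [Finset.mem_singleton, Nat.cast_inj]
    exact ⟨trivial, h⟩
  simp at h2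

theorem t_lamp (i : ℕ) : lamp (i + 1) * inr Lam.t = inr Lam.t * lamp i := by
  rw [lamp, lamp, ← map_mul, ← map_mul]
  congr 1

theorem sG_comm {c : Lam} (hc : c ∈ Lam.C) : (inr c : G) * sG = sG * inr c := by
  have h1 : c • x0 = x0 := by
    rw [x0, MulAction.Quotient.smul_mk, smul_eq_mul, mul_one, eq_comm, QuotientGroup.eq]
    simpa using hc
  rw [mul_sG, mul_inr]
  apply ext'
  · simp [sG, h1]
  · simp [sG]

theorem fixed_vertex {V : Type} [MulAction G V] {T : SimpleGraph V} (h : TreeAct G T)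
    {H : Subgroup G} (hH : VirtuallyZ H)
    (hedge : ∀ v w : V, T.Adj v w → ∃ g : G, ∀ s : G, s • v = v → s • w = w → g⁻¹ * s * g ∈ H) :
    ∃ x : V, ∀ g : G, g • x = x := by
  obtain ⟨z, hz, hfi⟩ := hH
  -- two different vertices have a small common stabiliser
  have key : ∀ x y : V, x ≠ y → ∀ u : Fin ((Subgroup.zpowers z).index + 1) → G,
      (∀ i j, i ≠ j → (u i)⁻¹ * u j ≠ 1 ∧ IsOfFinOrder ((u i)⁻¹ * u j)) →
      (∀ i, u i • x = x) → (∀ i, u i • y = y) → False := by
    intro x y hxy u hu hx hy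
    obtain ⟨v, hv1, hv2⟩ := exists_next h.isTree hxy
    obtain ⟨g, hg⟩ := hedge x v hv1
    exact pigeon hz hfi g u hu (fun i => hg _ (hx i) (h.convex (hx i) (hy i) hv2))
  -- finitely many lamps fix a vertex
  have hfix : ∀ m : ℕ, ∃ x : V, ∀ i < m, lamp i • x = x := by
    intro m
    induction m with
    | zero =>
      obtain ⟨v⟩ := h.isTree.connected.nonempty
      exact ⟨v, by simp⟩
    | succ m ih =>
      obtain ⟨x, hx, hx'⟩ := h.common_fixed {a | ∃ i < m, a = lamp i} (lamp m)
        (by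
          obtain ⟨x, hx⟩ := ih
          refine ⟨x, ?_⟩
          rintro _ ⟨i, hi, rfl⟩
          exact hx i hi)
        (fix_of_finOrder h (finOrder_inr rfl))
        (by
          rintro _ ⟨i, hi, rfl⟩
          rw [lamp_mul]
          exact fix_of_finOrder h (finOrder_inr rfl))
      refine ⟨x, fun i hi => ?_⟩
      rcases Nat.lt_succ_iff_lt_or_eq.1 hi with h1 | rfl
      · exact hx _ ⟨i, h1, rfl⟩
      · exact hx'
  obtain ⟨x, hx⟩ := hfix ((Subgroup.zpowers z).index + 2)
  have ht : (inr Lam.t : G) • x = x := by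
    by_contra hne
    refine key x ((inr Lam.t : G) • x) (fun e => hne e.symm) (fun i => lamp (i + 1)) ?_ ?_ ?_
    · intro i j hij
      refine ⟨lamp_inj (by simpa [Fin.ext_iff] using hij), ?_⟩
      rw [lamp_inv, lamp_mul]
      exact finOrder_inr rfl
    · intro i
      exact hx _ (by omega)
    · intro i
      rw [← mul_smul, t_lamp, mul_smul, hx _ (by omega)]
  have ha : (inr Lam.a : G) • x = x := hx 0 (by omega)
  have hinr : ∀ g : Lam, (inr g : G) • x = x := by
    have h1 : Subgroup.closure ({Lam.t, Lam.a} : Set Lam) ≤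
        (MulAction.stabilizer G x).comap inr := by
      rw [Subgroup.closure_le]
      rintro g (rfl | rfl)
      · exact ht
      · exact ha
    rw [Lam.closure_eq_top] at h1
    exact fun g => h1 (Subgroup.mem_top g)
  have hs : sG • x = x := by
    by_contra hne
    refine key x (sG • x) (fun e => hne e.symm) (fun i => inr (eC i)) ?_ ?_ ?_
    · intro i j hij
      have h1 : ((inr (eC i) : G))⁻¹ * inr (eC j) = inr ((eC i)⁻¹ * eC j) := by
        rw [map_mul, map_inv]
      rw [h1]
      constructor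
      · rw [← map_one (inr : Lam →* G)]
        intro hh
        have h2 := inv_mul_eq_one.1 (SemidirectProduct.inr_injective hh)
        exact hij (Fin.ext (eC_inj h2))
      · exact finOrder_inr (by simp [eC])
    · intro i
      exact hinr _
    · intro i
      rw [← mul_smul, sG_comm (eC_mem _), mul_smul, hinr]
  refine ⟨x, ?_⟩
  have h2 : Subgroup.closure (gens : Set G) ≤ MulAction.stabilizer G x := by
    rw [Subgroup.closure_le]
    intro g hg
    rw [Finset.mem_coe, mem_gens] at hg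
    rcases hg with rfl | rfl | rfl
    · exact ht
    · exact ha
    · exact hs
  rw [closure_gens] at h2
  exact fun g => h2 (Subgroup.mem_top g)

theorem no_split (H : Subgroup G) (hH : VirtuallyZ H) : ¬ SplitsOver G H := by
  rintro ⟨V, _, T, hT, hadj, hinv, hnf, horb, v0, w0, h0, hst⟩
  have h : TreeAct G T := ⟨hT, hadj, hinv⟩
  obtain ⟨x, hx⟩ := fixed_vertex h hH (by
    intro v w hvw
    obtain ⟨g, hg⟩ := horb v0 w0 v w h0 hvw
    refine ⟨g, fun s hs1 hs2 => ?_⟩
    rw [← hst, Subgroup.mem_inf, MulAction.mem_stabilizer_iff, MulAction.mem_stabilizer_iff]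
    rcases hg with ⟨rfl, rfl⟩ | ⟨rfl, rfl⟩
    · exact ⟨by rw [mul_smul, mul_smul, hs1, inv_smul_smul],
        by rw [mul_smul, mul_smul, hs2, inv_smul_smul]⟩
    · exact ⟨by rw [mul_smul, mul_smul, hs2, inv_smul_smul],
        by rw [mul_smul, mul_smul, hs1, inv_smul_smul]⟩)
  obtain ⟨g, hg⟩ := hnf x
  exact hg (hx g)

end Pool.Agent.W392
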