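import Mathlib

set_option autoImplicit false

/-! The lamplighter group, with lamps indexed by the integers. -/

namespace Pool.Agent.W392

/-- Elements of the lamplighter group: the finite set of lit lamps and the cursor. -/
@[ext] structure Lam where
  s : Finset ℤ
  j : ℤ

/-- The set `s + k`. -/
def sh (k : ℤ) (s : Finset ℤ) : Finset ℤ := s.map (Equiv.addRight k).toEmbedding

@[simp] theorem mem_sh {k x : ℤ} {s : Finset ℤ} : x ∈ sh k s ↔ x - k ∈ s := by
  unfold sh
  rw [Finset.mem_map_equiv]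
  simp [sub_eq_add_neg]

namespace Lam

instance : Mul Lam := ⟨fun g h => ⟨symmDiff g.s (sh g.j h.s), g.j + h.j⟩⟩
instance : One Lam := ⟨⟨∅, 0⟩⟩
instance : Inv Lam := ⟨fun g => ⟨sh (-g.j) g.s, -g.j⟩⟩

@[simp] theorem mul_j (g h : Lam) : (g * h).j = g.j + h.j := rfl
@[simp] theorem one_j : (1 : Lam).j = 0 := rfl
@[simp] theorem inv_j (g : Lam) : (g⁻¹).j = -g.j := rfl
@[simp] theorem one_s : (1 : Lam).s = ∅ := rfl
theorem mul_s (g h : Lam) : (g * h).s = symmDiff g.s (sh g.j h.s) := rfl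
@[simp] theorem mem_mul (g h : Lam) (x : ℤ) : x ∈ (g * h).s ↔
    (x ∈ g.s ∧ x - g.j ∉ h.s) ∨ (x - g.j ∈ h.s ∧ x ∉ g.s) := by
  rw [mul_s, Finset.mem_symmDiff, mem_sh]
@[simp] theorem mem_inv (g : Lam) (x : ℤ) : x ∈ (g⁻¹).s ↔ x + g.j ∈ g.s := by
  change x ∈ sh (-g.j) g.s ↔ _
  rw [mem_sh, sub_neg_eq_add]

instance : Group Lam := Group.ofLeftAxioms
  (by
    intro x y z
    ext q
    · simp only [mem_mul, mul_j, ← sub_sub]
      tauto
    · simp only [mul_j, add_assoc])
  (by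
    intro x
    ext q
    · simp
    · simp)
  (by
    intro x
    ext q
    · simp
    · simp)

/-- The generator moving the cursor. -/
def t : Lam := ⟨∅, 1⟩
/-- The generator switching the lamp at the cursor. -/
def a : Lam := ⟨{0}, 0⟩

@[simp] theorem t_j : t.j = 1 := rfl
@[simp] theorem t_s : t.s = ∅ := rfl
@[simp] theorem a_j : a.j = 0 := rfl
@[simp] theorem a_s : a.s = {0} := rfl

theorem mul_t (g : Lam) : g * t = ⟨g.s, g.j + 1⟩ := by
  ext q <;> simp

theorem mul_t_inv (g : Lam) : g * t⁻¹ = ⟨g.s, g.j - 1⟩ := by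
  ext q
  · simp
  · simp [sub_eq_add_neg]

theorem mul_a (g : Lam) : g * a = ⟨symmDiff g.s {g.j}, g.j⟩ := by
  ext q
  · simp [Finset.mem_symmDiff, sub_eq_zero]
  · simp

theorem t_zpow (n : ℤ) : t ^ n = ⟨∅, n⟩ := by
  induction n using Int.induction_on with
  | zero => rfl
  | succ n ih => rw [zpow_add_one, ih, mul_t]
  | pred n ih => rw [zpow_sub_one, ih, mul_t_inv]

theorem closure_eq_top : Subgroup.closure ({t, a} : Set Lam) = ⊤ := by
  rw [eq_top_iff]
  have ht : t ∈ Subgroup.closure ({t, a} : Set Lam) := Subgroup.subset_closure (by simp)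
  have ha : a ∈ Subgroup.closure ({t, a} : Set Lam) := Subgroup.subset_closure (by simp)
  have hz : ∀ n : ℤ, (⟨∅, n⟩ : Lam) ∈ Subgroup.closure ({t, a} : Set Lam) := fun n => by
    rw [← t_zpow]; exact Subgroup.zpow_mem _ ht n
  have h1 : ∀ s : Finset ℤ, (⟨s, 0⟩ : Lam) ∈ Subgroup.closure ({t, a} : Set Lam) := by
    intro s
    induction s using Finset.induction_on with
    | empty => exact Subgroup.one_mem _
    | insert n s hn ih =>
      have : (⟨insert n s, 0⟩ : Lam) = (⟨∅, n⟩ * a * ⟨∅, -n⟩) * ⟨s, 0⟩ := by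
        ext q
        · simp only [Finset.mem_insert, mem_mul, Finset.notMem_empty, not_false_eq_true, and_true,
            or_false, false_or, a_s, Finset.mem_singleton, mul_j, a_j, false_and]
          have e1 : q - n = 0 ↔ q = n := by omega
          have e2 : q - (n + 0 + -n) = q := by ring
          rw [e1, e2]
          by_cases hq : q = n
          · subst hq; simp [hn]
          · simp [hq]
        · simp
      rw [this]
      exact Subgroup.mul_mem _ (Subgroup.mul_mem _ (Subgroup.mul_mem _ (hz _) ha) (hz _)) ih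
  intro g _
  have : g = ⟨g.s, 0⟩ * ⟨∅, g.j⟩ := by
    ext q
    · simp
    · simp
  rw [this]
  exact Subgroup.mul_mem _ (h1 _) (hz _)

/-- The sparse subgroup: symmetric configurations of lamps at the places `± 4 ^ m`. -/
def C : Subgroup Lam where
  carrier := {g | g.j = 0 ∧ ∀ x ∈ g.s, -x ∈ g.s ∧ ∃ m : ℕ, |x| = 4 ^ m}
  one_mem' := ⟨rfl, fun x hx => absurd hx (Finset.notMem_empty x)⟩
  mul_mem' := by
    rintro g h ⟨g0, hg⟩ ⟨h0, hh⟩
    refine ⟨by simp [g0, h0], fun x hx => ?_⟩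
    rw [mem_mul, g0, sub_zero] at hx
    rw [mem_mul, g0, sub_zero]
    have e1 : -x ∈ g.s ↔ x ∈ g.s :=
      ⟨fun h => by simpa using (hg _ h).1, fun h => (hg _ h).1⟩
    have e2 : -x ∈ h.s ↔ x ∈ h.s :=
      ⟨fun h => by simpa using (hh _ h).1, fun h => (hh _ h).1⟩
    rw [e1, e2]
    refine ⟨hx, ?_⟩
    rcases hx with ⟨h1, _⟩ | ⟨h1, _⟩
    · exact (hg _ h1).2
    · exact (hh _ h1).2
  inv_mem' := by
    rintro g ⟨g0, hg⟩
    refine ⟨by simp [g0], fun x hx => ?_⟩
    rw [mem_inv, g0, add_zero] at hx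
    rw [mem_inv, g0, add_zero]
    exact hg x hx

theorem mem_C {g : Lam} : g ∈ C ↔ g.j = 0 ∧ ∀ x ∈ g.s, -x ∈ g.s ∧ ∃ m : ℕ, |x| = 4 ^ m := Iff.rfl

end Lam

end Pool.Agent.W392
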