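import Mathlib

set_option autoImplicit false

/-! The ruler sequence and the combinatorics of the sparse ray. -/

namespace Pool.Agent.W392

/-- The ruler sequence. -/
def lev (i : ℕ) : ℕ := if i % 2 = 0 then 0 else lev (i / 2) + 1
termination_by i
decreasing_by omega

theorem lev_two_mul (i : ℕ) : lev (2 * i) = 0 := by rw [lev, if_pos (by omega)]

theorem lev_two_mul_add_one (i : ℕ) : lev (2 * i + 1) = lev i + 1 := by
  rw [lev, if_neg (by omega)]
  congr 2
  omega

theorem lev_between : ∀ i i' : ℕ, i < i' → lev i = lev i' → ∃ l, i < l ∧ l < i' ∧ lev i < lev l := by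
  intro i
  induction i using Nat.strong_induction_on with
  | _ i ih =>
    intro i' hi h
    obtain ⟨b, rfl | rfl⟩ : ∃ b, i = 2 * b ∨ i = 2 * b + 1 := ⟨i / 2, by omega⟩
    · obtain ⟨b', rfl | rfl⟩ : ∃ b', i' = 2 * b' ∨ i' = 2 * b' + 1 := ⟨i' / 2, by omega⟩
      · refine ⟨2 * b + 1, by omega, by omega, ?_⟩
        rw [lev_two_mul, lev_two_mul_add_one]
        omega
      · rw [lev_two_mul, lev_two_mul_add_one] at h
        omega
    · obtain ⟨b', rfl | rfl⟩ : ∃ b', i' = 2 * b' ∨ i' = 2 * b' + 1 := ⟨i' / 2, by omega⟩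
      · rw [lev_two_mul, lev_two_mul_add_one] at h
        omega
      · rw [lev_two_mul_add_one, lev_two_mul_add_one] at h
        obtain ⟨l, h1, h2, h3⟩ := ih b (by omega) b' (by omega) (by omega)
        refine ⟨2 * l + 1, by omega, by omega, ?_⟩
        rw [lev_two_mul_add_one, lev_two_mul_add_one]
        omega

/-- Sum bound for windows of the ruler sequence. -/
theorem lev_sum (M : ℕ) : ∀ I I' : ℕ, I ≤ I' → (∀ i, I ≤ i → i < I' → lev i < M) →
    2 * ∑ i ∈ Finset.Ico I I', 4 ^ lev i ≤ 4 ^ M := by
  induction M with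
  | zero =>
    intro I I' h1 h2
    have : I = I' := by
      by_contra hne
      exact absurd (h2 I le_rfl (by omega)) (by omega)
    subst this
    simp
  | succ M ih =>
    intro I I' h1 h2
    by_cases hex : ∃ i, I ≤ i ∧ i < I' ∧ lev i = M
    · obtain ⟨i, hi1, hi2, hi3⟩ := hex
      have e1 := ih I i hi1 (fun l hl1 hl2 => by
        have h3 := h2 l hl1 (by omega)
        by_contra h4
        obtain ⟨l', h5, h6, h7⟩ := lev_between l i hl2 (by omega)
        have := h2 l' (by omega) (by omega)
        omega)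
      have e2 := ih (i + 1) I' (by omega) (fun l hl1 hl2 => by
        have h3 := h2 l (by omega) hl2
        by_contra h4
        obtain ⟨l', h5, h6, h7⟩ := lev_between i l (by omega) (by omega)
        have := h2 l' (by omega) (by omega)
        omega)
      rw [← Finset.sum_Ico_consecutive _ hi1 (by omega : i ≤ I'),
        Finset.sum_eq_sum_Ico_succ_bot hi2, hi3]
      rw [pow_succ]
      omega
    · push Not at hex
      have e1 := ih I I' h1 (fun l hl1 hl2 => by
        have h3 := h2 l hl1 hl2
        have h4 := hex l hl1 hl2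
        omega)
      rw [pow_succ]
      omega

/-- The level of the `k`-th switch. -/
def L (k : ℕ) : ℕ := lev (k / 2)

/-- The position of the `k`-th switch. -/
def q (k : ℕ) : ℤ := if k % 2 = 0 then 4 ^ L k else -4 ^ L k

/-- The distance of the `k`-th switch from the origin. -/
def w (k : ℕ) : ℕ := 4 ^ L k

theorem w_pos (k : ℕ) : 0 < w k := Nat.pos_of_ne_zero (by unfold w; positivity)

theorem q_even {k : ℕ} (h : k % 2 = 0) : q k = w k := by
  rw [q, if_pos h, w]; push_cast; rfl

theorem q_odd {k : ℕ} (h : k % 2 = 1) : q k = -w k := by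
  rw [q, if_neg (by omega), w]; push_cast; rfl

theorem w_inj {k k' : ℕ} (h : w k = w k') : L k = L k' :=
  Nat.pow_right_injective (le_refl 2 |>.trans (by norm_num : 2 ≤ 4)) h

theorem q_eq {k k' : ℕ} (h : q k = q k') : k % 2 = k' % 2 ∧ L k = L k' := by
  have h1 := w_pos k
  have h2 := w_pos k'
  rcases Nat.mod_two_eq_zero_or_one k with e | e <;>
    rcases Nat.mod_two_eq_zero_or_one k' with e' | e'
  · rw [q_even e, q_even e'] at h
    exact ⟨by omega, w_inj (by exact_mod_cast h)⟩
  · rw [q_even e, q_odd e'] at h; omega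
  · rw [q_odd e, q_even e'] at h; omega
  · rw [q_odd e, q_odd e'] at h
    exact ⟨by omega, w_inj (by omega)⟩

theorem L_between {l l' : ℕ} (h : l < l') (hq : q l = q l') :
    ∃ l'', l < l'' ∧ l'' < l' ∧ L l < L l'' := by
  obtain ⟨h1, h2⟩ := q_eq hq
  obtain ⟨i, h3, h4, h5⟩ := lev_between (l / 2) (l' / 2) (by omega) h2
  refine ⟨2 * i, by omega, by omega, ?_⟩
  unfold L
  rw [show 2 * i / 2 = i by omega]
  exact h5

theorem L_pair {k : ℕ} (h : k % 2 = 0) : L (k + 1) = L k := by
  unfold L
  rw [show (k + 1) / 2 = k / 2 by omega]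

theorem w_sum {k k' M : ℕ} (h : k < k') (hL : ∀ l, k ≤ l → l < k' → L l ≤ M) :
    ∑ l ∈ Finset.Ico k k', w l ≤ 4 * 4 ^ M := by
  have h1 := lev_sum (M + 1) (k / 2) ((k' + 1) / 2) (by omega) (fun i hi1 hi2 => by
    by_cases h2 : k ≤ 2 * i
    · have := hL (2 * i) h2 (by omega)
      unfold L at this
      rw [show 2 * i / 2 = i by omega] at this
      omega
    · have := hL (2 * i + 1) (by omega) (by omega)
      unfold L at this
      rw [show (2 * i + 1) / 2 = i by omega] at this
      omega)
  have h2 : ∀ n : ℕ, ∀ I : ℕ, ∑ l ∈ Finset.Ico (2 * I) (2 * (I + n)), w l =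
      2 * ∑ i ∈ Finset.Ico I (I + n), 4 ^ lev i := by
    intro n I
    induction n with
    | zero => simp
    | succ n ih =>
      rw [show 2 * (I + (n + 1)) = 2 * (I + n) + 1 + 1 by ring,
        Finset.sum_Ico_succ_top (by omega), Finset.sum_Ico_succ_top (by omega), ih,
        show I + (n + 1) = I + n + 1 by ring, Finset.sum_Ico_succ_top (by omega)]
      have e1 : w (2 * (I + n)) = 4 ^ lev (I + n) := by
        unfold w L; rw [show 2 * (I + n) / 2 = I + n by omega]
      have e2 : w (2 * (I + n) + 1) = 4 ^ lev (I + n) := by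
        unfold w L; rw [show (2 * (I + n) + 1) / 2 = I + n by omega]
      rw [e1, e2]
      ring
  have h3 : ∑ l ∈ Finset.Ico k k', w l ≤
      ∑ l ∈ Finset.Ico (2 * (k / 2)) (2 * ((k' + 1) / 2)), w l :=
    Finset.sum_le_sum_of_subset (Finset.Ico_subset_Ico (by omega) (by omega))
  have h4 := h2 ((k' + 1) / 2 - k / 2) (k / 2)
  rw [show k / 2 + ((k' + 1) / 2 - k / 2) = (k' + 1) / 2 by omega] at h4
  rw [h4] at h3
  rw [pow_succ] at h1
  omega

/-- The lamps lit after `k` switches. -/
def F : ℕ → Finset ℤ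
  | 0 => ∅
  | k + 1 => symmDiff (F k) {q k}

theorem mem_F_succ (k : ℕ) (x : ℤ) : x ∈ F (k + 1) ↔ (x ∈ F k ∧ x ≠ q k) ∨ (x = q k ∧ x ∉ F k) := by
  rw [F, Finset.mem_symmDiff, Finset.mem_singleton]

theorem F_const {k k' : ℕ} (h : k ≤ k') {x : ℤ} (hx : ∀ l, k ≤ l → l < k' → q l ≠ x) :
    x ∈ F k ↔ x ∈ F k' := by
  induction k', h using Nat.le_induction with
  | base => rfl
  | succ k' hk ih =>
    have h1 := ih (fun l h1 h2 => hx l h1 (by omega))
    have h2 := hx k' hk (by omega)
    rw [h1, mem_F_succ]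
    have h3 : x ≠ q k' := fun e => h2 e.symm
    simp [h3]

/-- A lamp switched exactly once has changed. -/
theorem F_once {k k' l : ℕ} (h1 : k ≤ l) (h2 : l < k')
    (hx : ∀ l', k ≤ l' → l' < k' → q l' = q l → l' = l) : ¬ (q l ∈ F k ↔ q l ∈ F k') := by
  rw [F_const h1 (x := q l) (fun l' e1 e2 e3 => by
      have := hx l' e1 (by omega) e3; omega),
    ← F_const (show l + 1 ≤ k' by omega) (x := q l) (fun l' e1 e2 e3 => by
      have := hx l' (by omega) e2 e3; omega), mem_F_succ]
  tauto

/-- The time of the `k`-th passage through the origin. -/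
def Z : ℕ → ℕ
  | 0 => 0
  | k + 1 => Z k + 2 * w k

theorem Z_diff {k k' : ℕ} (h : k ≤ k') : Z k' = Z k + 2 * ∑ l ∈ Finset.Ico k k', w l := by
  induction k', h using Nat.le_induction with
  | base => simp
  | succ k' hk ih => rw [Z, ih, Finset.sum_Ico_succ_top hk]; ring

/-- The number of switches made at time `n`. -/
def kk : ℕ → ℕ
  | 0 => 0
  | n + 1 => if n + 1 < Z (kk n) + w (kk n) then kk n else kk n + 1

/-- The width of the previous excursion. -/
def wp : ℕ → ℕ
  | 0 => 0
  | k + 1 => w k

theorem kk_inv (n : ℕ) : Z (kk n) ≤ n + wp (kk n) ∧ n < Z (kk n) + w (kk n) := by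
  induction n with
  | zero =>
    rw [kk, Z, wp]
    exact ⟨le_rfl, by have := w_pos 0; omega⟩
  | succ n ih =>
    rw [kk]
    split_ifs with h
    · omega
    · rw [Z, wp]
      have := w_pos (kk n + 1)
      have := w_pos (kk n)
      omega

theorem kk_mono : Monotone kk := monotone_nat_of_le_succ (fun n => by rw [kk]; split_ifs <;> omega)

theorem Z_le {k k' : ℕ} (h : k ≤ k') : Z k ≤ Z k' := by rw [Z_diff h]; omega

/-- Uniqueness of the index. -/
theorem kk_eq {n k : ℕ} (h1 : Z k ≤ n) (h2 : n < Z k + w k) : kk n = k := by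
  obtain ⟨h3, h4⟩ := kk_inv n
  rcases lt_trichotomy (kk n) k with h | h | h
  · have := Z_le (show kk n + 1 ≤ k by omega)
    rw [Z] at this
    omega
  · exact h
  · obtain ⟨m, hm⟩ : ∃ m, kk n = m + 1 := ⟨kk n - 1, by omega⟩
    rw [hm] at h h3
    have := Z_le (show k ≤ m by omega)
    rw [Z, wp] at h3
    rcases eq_or_lt_of_le (show k ≤ m by omega) with e | e
    · subst e; omega
    · have := Z_le (show k + 1 ≤ m by omega)
      rw [Z] at this
      omega

/-- The cursor in the `k`-th segment at time `n`. -/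
def cur (k : ℕ) (n : ℕ) : ℤ := if k % 2 = 0 then (n : ℤ) - Z k else (Z k : ℤ) - n

theorem abs_cur (k n : ℕ) : |cur k n| = |(n : ℤ) - Z k| := by
  unfold cur
  split_ifs
  · rfl
  · rw [← abs_neg, neg_sub]

/-- The combinatorial heart: time is controlled by the distance. -/
theorem time_le {n n' : ℕ} (hn : n ≤ n') {D : ℤ} (hD0 : |cur (kk n) n - cur (kk n') n'| ≤ D)
    (hD : ∀ x : ℤ, ¬ (x ∈ F (kk n) ↔ x ∈ F (kk n')) →
      |cur (kk n) n - x| + |x - cur (kk n') n'| ≤ D) :
    (n' : ℤ) - n ≤ 22 * D := by
  have hD0' : 0 ≤ D := le_trans (abs_nonneg _) hD0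
  set k := kk n with hk
  set k' := kk n' with hk'
  have hkk : k ≤ k' := kk_mono hn
  obtain ⟨i1, i2⟩ := kk_inv n
  obtain ⟨j1, j2⟩ := kk_inv n'
  rw [← hk] at i1 i2
  rw [← hk'] at j1 j2
  have hay := abs_cur k n
  have hay' := abs_cur k' n'
  rcases eq_or_lt_of_le hkk with he | hlt
  · have : |cur k n - cur k' n'| = (n' : ℤ) - n := by
      rw [← he]
      unfold cur
      split_ifs
      · rw [show (n : ℤ) - Z k - (n' - Z k) = -((n' : ℤ) - n) by ring, abs_neg, abs_of_nonneg]
        omega
      · rw [show (Z k : ℤ) - n - (Z k - n') = ((n' : ℤ) - n) by ring, abs_of_nonneg]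
        omega
    omega
  -- the maximal level
  obtain ⟨l, hl1, hl2, hmax⟩ : ∃ l, k ≤ l ∧ l < k' ∧ ∀ l', k ≤ l' → l' < k' → L l' ≤ L l := by
    obtain ⟨l, hl, hmax⟩ := Finset.exists_max_image (Finset.Ico k k') L ⟨k, by simpa using hlt⟩
    rw [Finset.mem_Ico] at hl
    exact ⟨l, hl.1, hl.2, fun l' h1 h2 => hmax l' (by rw [Finset.mem_Ico]; exact ⟨h1, h2⟩)⟩
  have huniq : ∀ l₁ l₂, k ≤ l₁ → l₁ < k' → k ≤ l₂ → l₂ < k' → L l₁ = L l → q l₂ = q l₁ → l₂ = l₁ := by
    intro l₁ l₂ h1 h2 h3 h4 h5 h6
    obtain ⟨e1, e2⟩ := q_eq h6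
    rcases lt_trichotomy l₂ l₁ with h | h | h
    · obtain ⟨l'', f1, f2, f3⟩ := L_between h h6
      have := hmax l'' (by omega) (by omega)
      omega
    · exact h
    · obtain ⟨l'', f1, f2, f3⟩ := L_between h h6.symm
      have := hmax l'' (by omega) (by omega)
      omega
  have hlamp : ∀ l₁, k ≤ l₁ → l₁ < k' → L l₁ = L l →
      |cur k n - q l₁| + |q l₁ - cur k' n'| ≤ D := fun l₁ h1 h2 h3 =>
    hD _ (F_once h1 h2 (fun l' e1 e2 e3 => huniq l₁ l' h1 h2 e1 e2 h3 e3))
  have hl := hlamp l hl1 hl2 rfl
  have hsum := w_sum hlt hmax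
  have hZ := Z_diff hkk
  set X : ℕ := 4 ^ L l with hX
  have hwl : w l = X := rfl
  have hwX : ∀ l', w l' = X ↔ L l' = L l := fun l' => ⟨fun h => w_inj h, fun h => by
    unfold w; rw [h]⟩
  have hXpos : 0 < X := by rw [← hwl]; exact w_pos l
  have hbig : ∀ l', (X : ℤ) < 2 * w l' → L l ≤ L l' := by
    intro l' h
    by_contra hlt'
    have h1 : L l' + 1 ≤ L l := by omega
    have h2 : (4 : ℕ) ^ (L l' + 1) ≤ 4 ^ L l := Nat.pow_le_pow_right (by norm_num) h1
    have h3 : w l' = 4 ^ L l' := rfl
    rw [pow_succ, ← h3, ← hX] at h2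
    omega
  have hqabs : ∀ l', q l' = w l' ∧ l' % 2 = 0 ∨ q l' = -w l' ∧ l' % 2 = 1 := by
    intro l'
    rcases Nat.mod_two_eq_zero_or_one l' with h | h
    · exact Or.inl ⟨q_even h, h⟩
    · exact Or.inr ⟨q_odd h, h⟩
  have htime : (n' : ℤ) - n ≤ |cur k n| + |cur k' n'| + 8 * X := by
    rw [hay, hay']
    have h1 := neg_abs_le ((n : ℤ) - Z k)
    have h2 := le_abs_self ((n' : ℤ) - Z k')
    push_cast [hZ] at h2 ⊢
    have h3 : ((∑ l ∈ Finset.Ico k k', w l : ℕ) : ℤ) ≤ 4 * X := by exact_mod_cast hsum
    push_cast at h3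
    omega
  -- near the extreme lamp
  have hY : |cur k n| ≤ |cur k n - q l| + X := by
    rcases hqabs l with ⟨h1, _⟩ | ⟨h1, _⟩ <;> rw [h1, hwl] <;>
      rcases abs_cases (cur k n) with h | h <;>
      rcases abs_cases (cur k n - X) with h' | h' <;>
      rcases abs_cases (cur k n - -X) with h'' | h'' <;> omega
  have hY' : |cur k' n'| ≤ |q l - cur k' n'| + X := by
    rcases hqabs l with ⟨h1, _⟩ | ⟨h1, _⟩ <;> rw [h1, hwl] <;>
      rcases abs_cases (cur k' n') with h | h <;>
      rcases abs_cases ((X : ℤ) - cur k' n') with h' | h' <;>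
      rcases abs_cases (-(X : ℤ) - cur k' n') with h'' | h'' <;> omega
  have hp1 := abs_nonneg (cur k n - q l)
  have hp2 := abs_nonneg (q l - cur k' n')
  by_cases hk1 : k' = k + 1
  · -- one switch only
    have hlk : l = k := by omega
    have h1 : |cur k n - q l| = Z k + w k - n := by
      rw [hlk]
      rcases hqabs k with ⟨h1, h2⟩ | ⟨h1, h2⟩
      · rw [h1, cur, if_pos h2]
        rcases abs_cases ((n : ℤ) - Z k - w k) with h | h <;> omega
      · rw [h1, cur, if_neg (by omega)]
        rcases abs_cases ((Z k : ℤ) - n - -w k) with h | h <;> omega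
    have h2 : |q l - cur k' n'| = n' - (Z k + w k) := by
      rw [hlk, hk1, cur, Z]
      rw [hk1, Z, wp] at j1
      rcases hqabs k with ⟨h1, h2⟩ | ⟨h1, h2⟩
      · rw [h1, if_neg (by omega)]
        push_cast
        rcases abs_cases ((w k : ℤ) - (Z k + 2 * w k - n')) with h | h <;> omega
      · rw [h1, if_pos (by omega)]
        push_cast
        rcases abs_cases (-(w k : ℤ) - (n' - (Z k + 2 * w k))) with h | h <;> omega
    omega
  · have hX2 : (X : ℤ) ≤ 2 * D := by
      by_contra hcon
      have hy : 2 * |cur k n - q l| < X := by omega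
      have hy' : 2 * |q l - cur k' n'| < X := by omega
      -- position of `y`
      have hc1 : l = k ∨ (k % 2 = 0 ∧ q l = -X ∧ cur k n < 0) := by
        rcases Nat.mod_two_eq_zero_or_one k with hkm | hkm
        · have hc : cur k n = (n : ℤ) - Z k := by rw [cur, if_pos hkm]
          rcases hqabs l with ⟨h1, h2⟩ | ⟨h1, h2⟩
          · rw [h1, hwl, hc] at hy
            have h3 : (X : ℤ) < 2 * w k := by
              rcases abs_cases ((n : ℤ) - Z k - X) with h | h <;> omega
            have h4 := hmax k le_rfl hlt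
            have h5 := hbig k h3
            left
            refine (huniq k l le_rfl hlt hl1 hl2 (by omega) ?_)
            rw [h1, q_even hkm, hwl, (hwX k).2 (by omega)]
          · right
            refine ⟨hkm, by rw [h1, hwl], ?_⟩
            rw [h1, hwl, hc] at hy
            rw [hc]
            rcases abs_cases ((n : ℤ) - Z k - -X) with h | h <;> omega
        · have hc : cur k n = (Z k : ℤ) - n := by rw [cur, if_neg (by omega)]
          rcases hqabs l with ⟨h1, h2⟩ | ⟨h1, h2⟩
          · exfalso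
            rw [h1, hwl, hc] at hy
            have h3 : (X : ℤ) < 2 * wp k := by
              rcases abs_cases ((Z k : ℤ) - n - X) with h | h <;> omega
            obtain ⟨m, hkm1⟩ : ∃ m, k = m + 1 := ⟨k - 1, by omega⟩
            have hm : m % 2 = 0 := by omega
            rw [hkm1, wp] at h3
            have h4 := hbig m h3
            have h5 := L_pair hm
            have h6 := hmax (m + 1) (by omega) (by omega)
            have h7 : q m = q l := by
              rw [h1, q_even hm, hwl, (hwX m).2 (by omega)]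
            obtain ⟨l'', f1, f2, f3⟩ := L_between (show m < l by omega) h7
            have := hmax l'' (by omega) (by omega)
            omega
          · rw [h1, hwl, hc] at hy
            have h3 : (X : ℤ) < 2 * w k := by
              rcases abs_cases ((Z k : ℤ) - n - -X) with h | h <;> omega
            have h4 := hmax k le_rfl hlt
            have h5 := hbig k h3
            left
            refine (huniq k l le_rfl hlt hl1 hl2 (by omega) ?_)
            rw [h1, q_odd hkm, hwl, (hwX k).2 (by omega)]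
      have hc2 : l + 1 = k' ∨ (k' % 2 = 0 ∧ q l = X ∧ 0 < cur k' n') := by
        obtain ⟨m, hm⟩ : ∃ m, k' = m + 1 := ⟨k' - 1, by omega⟩
        rcases Nat.mod_two_eq_zero_or_one k' with hkm | hkm
        · have hc : cur k' n' = (n' : ℤ) - Z k' := by rw [cur, if_pos hkm]
          rcases hqabs l with ⟨h1, h2⟩ | ⟨h1, h2⟩
          · right
            refine ⟨hkm, by rw [h1, hwl], ?_⟩
            rw [h1, hwl, hc] at hy'
            rw [hc]
            rcases abs_cases ((X : ℤ) - (n' - Z k')) with h | h <;> omega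
          · rw [h1, hwl, hc] at hy'
            have h3 : (X : ℤ) < 2 * wp k' := by
              rcases abs_cases (-(X : ℤ) - (n' - Z k')) with h | h <;> omega
            rw [hm, wp] at h3
            have h4 := hmax m (by omega) (by omega)
            have h5 := hbig m h3
            left
            rw [huniq m l (by omega) (by omega) hl1 hl2 (by omega)
              (by rw [h1, q_odd (by omega : m % 2 = 1), hwl, (hwX m).2 (by omega)]), hm]
        · have hc : cur k' n' = (Z k' : ℤ) - n' := by rw [cur, if_neg (by omega)]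
          rcases hqabs l with ⟨h1, h2⟩ | ⟨h1, h2⟩
          · rw [h1, hwl, hc] at hy'
            have h3 : (X : ℤ) < 2 * wp k' := by
              rcases abs_cases ((X : ℤ) - (Z k' - n')) with h | h <;> omega
            rw [hm, wp] at h3
            have h4 := hmax m (by omega) (by omega)
            have h5 := hbig m h3
            left
            rw [huniq m l (by omega) (by omega) hl1 hl2 (by omega)
              (by rw [h1, q_even (by omega : m % 2 = 0), hwl, (hwX m).2 (by omega)]), hm]
          · exfalso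
            rw [h1, hwl, hc] at hy'
            have h3 : (X : ℤ) < 2 * w k' := by
              rcases abs_cases (-(X : ℤ) - (Z k' - n')) with h | h <;> omega
            have h4 := hbig k' h3
            have h5 : L k' = L m := by rw [hm]; exact L_pair (by omega)
            have h6 := hmax m (by omega) (by omega)
            have h7 : q l = q k' := by
              rw [h1, q_odd hkm, hwl, (hwX k').2 (by omega)]
            obtain ⟨l'', f1, f2, f3⟩ := L_between (show l < k' by omega) h7
            have := hmax l'' (by omega) (by omega)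
            omega
      rcases hc1 with hc1 | ⟨c1, c2, c3⟩ <;> rcases hc2 with hc2 | ⟨d1, d2, d3⟩
      · omega
      · -- the lamp at `-X`
        have hl0 : l % 2 = 0 := by
          rcases hqabs l with ⟨h1, h2⟩ | ⟨h1, h2⟩
          · exact h2
          · rw [h1, hwl] at d2; omega
        have h1 := hlamp (l + 1) (by omega) (by omega) (L_pair hl0)
        rw [q_odd (by omega : (l + 1) % 2 = 1), (hwX (l + 1)).2 (L_pair hl0)] at h1
        have h2 := abs_nonneg (cur k n - -(X : ℤ))
        rcases abs_cases (-(X : ℤ) - cur k' n') with h | h <;> omega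
      · -- the lamp at `X`
        have hl0 : l % 2 = 1 := by
          rcases hqabs l with ⟨h1, h2⟩ | ⟨h1, h2⟩
          · rw [h1, hwl] at c2; omega
          · exact h2
        obtain ⟨m, rfl⟩ : ∃ m, l = m + 1 := ⟨l - 1, by omega⟩
        have hm : m % 2 = 0 := by omega
        have h1 := hlamp m (by omega) (by omega) (L_pair hm).symm
        rw [q_even hm, (hwX m).2 (L_pair hm).symm] at h1
        have h2 := abs_nonneg ((X : ℤ) - cur k' n')
        rcases abs_cases (cur k n - (X : ℤ)) with h | h <;> omega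
      · omega
    omega

/-- The levels switched an odd number of times. -/
def Gc : ℕ → Finset ℕ
  | 0 => ∅
  | i + 1 => symmDiff (Gc i) {lev i}

theorem mem_Gc_succ (i m : ℕ) : m ∈ Gc (i + 1) ↔ (m ∈ Gc i ∧ m ≠ lev i) ∨ (m = lev i ∧ m ∉ Gc i) := by
  rw [Gc, Finset.mem_symmDiff, Finset.mem_singleton]

theorem Gc_double (i m : ℕ) : m + 1 ∈ Gc (2 * i) ↔ m ∈ Gc i := by
  induction i with
  | zero => simp [Gc]
  | succ i ih =>
    rw [show 2 * (i + 1) = 2 * i + 1 + 1 by ring, mem_Gc_succ, mem_Gc_succ, lev_two_mul,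
      lev_two_mul_add_one, ih, mem_Gc_succ]
    simp

theorem Gc_surj (N : ℕ) : ∀ A : Finset ℕ, (∀ m ∈ A, m < N) → ∃ i, Gc i = A := by
  induction N with
  | zero =>
    intro A hA
    refine ⟨0, ?_⟩
    rw [Gc]
    symm
    rw [Finset.eq_empty_iff_forall_notMem]
    intro m hm
    exact absurd (hA m hm) (by omega)
  | succ N ih =>
    intro A hA
    obtain ⟨i, hi⟩ := ih ((A.filter (fun m => 0 < m)).image (fun m => m - 1)) (by
      intro m hm
      simp only [Finset.mem_image, Finset.mem_filter] at hm
      obtain ⟨m', ⟨h1, h2⟩, rfl⟩ := hm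
      have := hA m' h1
      omega)
    have hi' : ∀ m, m + 1 ∈ Gc (2 * i) ↔ m + 1 ∈ A := by
      intro m
      rw [Gc_double, hi]
      simp only [Finset.mem_image, Finset.mem_filter]
      constructor
      · rintro ⟨m', ⟨h1, h2⟩, h3⟩
        have : m' = m + 1 := by omega
        rwa [this] at h1
      · intro h
        exact ⟨m + 1, ⟨h, by omega⟩, by omega⟩
    by_cases h0 : 0 ∈ Gc (2 * i) ↔ 0 ∈ A
    · refine ⟨2 * i, ?_⟩
      ext m
      cases m with
      | zero => exact h0
      | succ m => exact hi' m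
    · refine ⟨2 * i + 1, ?_⟩
      ext m
      rw [mem_Gc_succ, lev_two_mul]
      cases m with
      | zero => simp; tauto
      | succ m => simp [hi' m]

theorem mem_F_double (i : ℕ) (x : ℤ) : x ∈ F (2 * i) ↔ ∃ m ∈ Gc i, x = 4 ^ m ∨ x = -4 ^ m := by
  induction i with
  | zero => simp [F, Gc]
  | succ i ih =>
    rw [show 2 * (i + 1) = 2 * i + 1 + 1 by ring, mem_F_succ, mem_F_succ, ih]
    have e1 : q (2 * i) = 4 ^ lev i := by
      rw [q, if_pos (by omega), L, show 2 * i / 2 = i by omega]
    have e2 : q (2 * i + 1) = -4 ^ lev i := by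
      rw [q, if_neg (by omega), L, show (2 * i + 1) / 2 = i by omega]
    rw [e1, e2]
    have hinj : ∀ m m' : ℕ, (4 : ℤ) ^ m = 4 ^ m' → m = m' := fun m m' h => by
      have : (4 : ℕ) ^ m = 4 ^ m' := by exact_mod_cast h
      exact Nat.pow_right_injective (by norm_num : 2 ≤ 4) this
    have hpos : ∀ m : ℕ, (0 : ℤ) < 4 ^ m := fun m => by positivity
    by_cases hx : ∃ m : ℕ, x = 4 ^ m ∨ x = -4 ^ m
    · obtain ⟨m, hm⟩ := hx
      have key : ∀ A : Finset ℕ, (∃ m' ∈ A, x = 4 ^ m' ∨ x = -4 ^ m') ↔ m ∈ A := by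
        intro A
        constructor
        · rintro ⟨m', h1, h2⟩
          have : m = m' := by
            have := hpos m
            have := hpos m'
            rcases hm with hm | hm <;> rcases h2 with h2 | h2 <;> rw [hm] at h2
            · exact hinj _ _ h2
            · omega
            · omega
            · exact hinj _ _ (by omega)
          rwa [this]
        · intro h
          exact ⟨m, h, hm⟩
      rw [key, key, mem_Gc_succ]
      by_cases hml : m = lev i
      · subst hml
        have := hpos (lev i)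
        rcases hm with hm | hm
        · have h1 : x ≠ -4 ^ lev i := by omega
          have e3 : (x = 4 ^ lev i) = True := eq_true hm
          have e4 : (x = -4 ^ lev i) = False := eq_false h1
          simp only [ne_eq, e3, e4]
          tauto
        · have h1 : x ≠ 4 ^ lev i := by omega
          have e3 : (x = 4 ^ lev i) = False := eq_false h1
          have e4 : (x = -4 ^ lev i) = True := eq_true hm
          simp only [ne_eq, e3, e4]
          tauto
      · have h1 : x ≠ 4 ^ lev i := by
          intro h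
          have := hpos m
          have := hpos (lev i)
          rcases hm with hm | hm
          · exact hml (hinj _ _ (by rw [← hm, h]))
          · omega
        have h2 : x ≠ -4 ^ lev i := by
          intro h
          have := hpos m
          have := hpos (lev i)
          rcases hm with hm | hm
          · omega
          · exact hml (hinj _ _ (by omega))
        simp [h1, h2, hml]
    · have h1 : x ≠ 4 ^ lev i := fun h => hx ⟨_, Or.inl h⟩
      have h2 : x ≠ -4 ^ lev i := fun h => hx ⟨_, Or.inr h⟩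
      simp only [h1, h2, false_and, or_false, ne_eq, not_false_eq_true, and_true]
      constructor
      · rintro ⟨m, _, h⟩; exact absurd ⟨m, h⟩ hx
      · rintro ⟨m, _, h⟩; exact absurd ⟨m, h⟩ hx

/-- Every symmetric finite configuration at the places `± 4 ^ m` occurs. -/
theorem F_surj (s : Finset ℤ) (hs : ∀ x ∈ s, -x ∈ s ∧ ∃ m : ℕ, |x| = 4 ^ m) :
    ∃ i, F (2 * i) = s := by
  classical
  obtain ⟨N, hN⟩ : ∃ N : ℕ, ∀ x ∈ s, |x| < N := by
    refine ⟨∑ x ∈ s, (x.natAbs) + 1, fun x hx => ?_⟩
    have h1 := Finset.single_le_sum (f := fun x : ℤ => x.natAbs) (fun _ _ => Nat.zero_le _) hx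
    have h2 : |x| = (x.natAbs : ℤ) := by simp
    rw [h2]
    have : x.natAbs ≤ ∑ x ∈ s, x.natAbs := h1
    exact Nat.cast_lt.2 (Nat.lt_succ_of_le this)
  obtain ⟨i, hi⟩ := Gc_surj N ((Finset.range N).filter (fun m => (4 : ℤ) ^ m ∈ s)) (by
    intro m hm
    simpa using (Finset.mem_filter.1 hm).1)
  refine ⟨i, ?_⟩
  ext x
  rw [mem_F_double, hi]
  constructor
  · rintro ⟨m, hm, h⟩
    have h1 := (Finset.mem_filter.1 hm).2
    rcases h with rfl | rfl
    · exact h1
    · exact (hs _ h1).1
  · intro hx
    obtain ⟨h1, m, hm⟩ := hs x hx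
    have h4 : (m : ℤ) < 4 ^ m := by
      have : m < 4 ^ m := Nat.lt_pow_self (by norm_num)
      exact_mod_cast this
    refine ⟨m, ?_, ?_⟩
    · rw [Finset.mem_filter, Finset.mem_range]
      constructor
      · have := hN x hx
        omega
      · rcases abs_cases x with ⟨h, _⟩ | ⟨h, _⟩
        · rw [← hm, h]; exact hx
        · rw [← hm, h]; exact h1
    · rcases abs_cases x with ⟨h, _⟩ | ⟨h, _⟩
      · left; omega
      · right; omega

end Pool.Agent.W392
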