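import Pool.Agent.W392.SepDefs
import Pool.Agent.W392.Lamp
import Pool.Agent.W392.Ray

set_option autoImplicit false

/-! The group, its Cayley graph, and the quasi-ray. -/

namespace Pool.Agent.W392

open SemidirectProduct

/-- The cosets of the sparse subgroup. -/
abbrev Q : Type := Lam ⧸ Lam.C

/-- The action of the lamplighter group on the free group on the cosets. -/
noncomputable def φ : Lam →* MulAut (FreeGroup Q) where
  toFun g := FreeGroup.freeGroupCongr (MulAction.toPerm g)
  map_one' := by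
    ext x
    induction x using FreeGroup.induction_on <;> simp_all
  map_mul' g h := by
    ext x
    induction x using FreeGroup.induction_on with
    | C1 => simp
    | of x => simp [mul_smul]
    | inv_of x _ => simp [mul_smul]
    | mul x y hx hy => rw [map_mul, hx, hy, map_mul]

theorem φ_of (g : Lam) (x : Q) : φ g (FreeGroup.of x) = FreeGroup.of (g • x) := by
  simp [φ]

/-- The group. -/
abbrev G : Type := FreeGroup Q ⋊[φ] Lam

/-- The base coset. -/
def x0 : Q := QuotientGroup.mk 1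

/-- The stable letter. -/
noncomputable def sG : G := inl (FreeGroup.of x0)

open Classical in
/-- The generators. -/
noncomputable def gens : Finset G := {inr Lam.t, inr Lam.a, sG}

theorem ext' {x y : G} (h1 : x.left = y.left) (h2 : x.right = y.right) : x = y :=
  SemidirectProduct.ext h1 h2

theorem mul_inr (x : G) (g : Lam) : x * inr g = ⟨x.left, x.right * g⟩ := by
  apply ext' <;> simp

theorem mul_sG (x : G) : x * sG = ⟨x.left * FreeGroup.of (x.right • x0), x.right⟩ := by
  apply ext'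
  · rw [mul_left, sG, left_inl, φ_of]
  · simp [sG]

theorem mem_gens (x : G) : x ∈ gens ↔ x = inr Lam.t ∨ x = inr Lam.a ∨ x = sG := by
  classical
  simp [gens]

/-- The Cayley graph. -/
noncomputable abbrev Γ : SimpleGraph G := cayley gens

theorem adj_iff (x y : G) : Γ.Adj x y ↔ x ≠ y ∧
    ((x.left = y.left ∧ (y.right = x.right * Lam.t ∨ x.right = y.right * Lam.t ∨
      y.right = x.right * Lam.a ∨ x.right = y.right * Lam.a)) ∨
     (x.right = y.right ∧ (y.left = x.left * FreeGroup.of (x.right • x0) ∨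
      x.left = y.left * FreeGroup.of (x.right • x0)))) := by
  have key : ∀ x y : G, (∃ s ∈ gens, y = x * s) ↔
      ((x.left = y.left ∧ (y.right = x.right * Lam.t ∨ y.right = x.right * Lam.a)) ∨
       (x.right = y.right ∧ y.left = x.left * FreeGroup.of (x.right • x0))) := by
    intro x y
    constructor
    · rintro ⟨s, hs, rfl⟩
      rw [mem_gens] at hs
      rcases hs with rfl | rfl | rfl
      · rw [mul_inr]; simp
      · rw [mul_inr]; simp
      · rw [mul_sG]; simp
    · rintro (⟨h1, h2 | h2⟩ | ⟨h1, h2⟩)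
      · exact ⟨inr Lam.t, by simp [mem_gens], by rw [mul_inr]; exact ext' h1.symm h2⟩
      · exact ⟨inr Lam.a, by simp [mem_gens], by rw [mul_inr]; exact ext' h1.symm h2⟩
      · exact ⟨sG, by simp [mem_gens], by rw [mul_sG]; exact ext' h2 h1.symm⟩
  have h0 : Γ.Adj x y ↔ x ≠ y ∧ ((∃ s ∈ gens, y = x * s) ∨ (∃ s ∈ gens, x = y * s)) := by
    change x ≠ y ∧ (∃ s ∈ gens, y = x * s ∨ x = y * s) ↔ _
    constructor
    · rintro ⟨h, s, hs, h1 | h1⟩
      · exact ⟨h, Or.inl ⟨s, hs, h1⟩⟩
      · exact ⟨h, Or.inr ⟨s, hs, h1⟩⟩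
    · rintro ⟨h, ⟨s, hs, h1⟩ | ⟨s, hs, h1⟩⟩
      · exact ⟨h, s, hs, Or.inl h1⟩
      · exact ⟨h, s, hs, Or.inr h1⟩
  rw [h0, key, key]
  constructor
  · rintro ⟨h, (⟨h1, h2⟩ | ⟨h1, h2⟩) | (⟨h1, h2⟩ | ⟨h1, h2⟩)⟩
    · exact ⟨h, Or.inl ⟨h1, by tauto⟩⟩
    · exact ⟨h, Or.inr ⟨h1, Or.inl h2⟩⟩
    · exact ⟨h, Or.inl ⟨h1.symm, by tauto⟩⟩
    · exact ⟨h, Or.inr ⟨h1.symm, Or.inr (by rw [← h1]; exact h2)⟩⟩
  · rintro ⟨h, ⟨h1, h2 | h2 | h2 | h2⟩ | ⟨h1, h2 | h2⟩⟩
    · exact ⟨h, Or.inl (Or.inl ⟨h1, Or.inl h2⟩)⟩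
    · exact ⟨h, Or.inr (Or.inl ⟨h1.symm, Or.inl h2⟩)⟩
    · exact ⟨h, Or.inl (Or.inl ⟨h1, Or.inr h2⟩)⟩
    · exact ⟨h, Or.inr (Or.inl ⟨h1.symm, Or.inr h2⟩)⟩
    · exact ⟨h, Or.inl (Or.inr ⟨h1, h2⟩)⟩
    · exact ⟨h, Or.inr (Or.inr ⟨h1.symm, by rw [← h1]; exact h2⟩)⟩

theorem inr_mem (g : Lam) : (inr g : G) ∈ Subgroup.closure (gens : Set G) := by
  have h1 : Subgroup.closure ({Lam.t, Lam.a} : Set Lam) ≤
      (Subgroup.closure (gens : Set G)).comap inr := by
    rw [Subgroup.closure_le]
    rintro g (rfl | rfl)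
    · exact Subgroup.subset_closure (by simp [mem_gens])
    · exact Subgroup.subset_closure (by simp [mem_gens])
  rw [Lam.closure_eq_top] at h1
  exact h1 (Subgroup.mem_top g)

theorem exists_smul (x : Q) : ∃ g : Lam, g • x0 = x := by
  obtain ⟨g, rfl⟩ := QuotientGroup.mk_surjective x
  exact ⟨g, by rw [x0, MulAction.Quotient.smul_mk, smul_eq_mul, mul_one]⟩

theorem closure_gens : Subgroup.closure (gens : Set G) = ⊤ := by
  rw [eq_top_iff]
  have h1 : ∀ x : Q, (inl (FreeGroup.of x) : G) ∈ Subgroup.closure (gens : Set G) := by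
    intro x
    obtain ⟨g, rfl⟩ := exists_smul x
    have h2 : (inl (FreeGroup.of (g • x0)) : G) = inr g * sG * (inr g)⁻¹ := by
      rw [← φ_of, sG, inl_aut, map_inv]
    rw [h2]
    exact Subgroup.mul_mem _ (Subgroup.mul_mem _ (inr_mem g)
      (Subgroup.subset_closure (by simp [mem_gens]))) (Subgroup.inv_mem _ (inr_mem g))
  have h2 : ∀ w : FreeGroup Q, (inl w : G) ∈ Subgroup.closure (gens : Set G) := by
    intro w
    induction w using FreeGroup.induction_on with
    | C1 => rw [map_one]; exact Subgroup.one_mem _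
    | of x => exact h1 x
    | inv_of x h => rw [map_inv]; exact Subgroup.inv_mem _ h
    | mul x y hx hy => rw [map_mul]; exact Subgroup.mul_mem _ hx hy
  intro x _
  rw [← inl_left_mul_inr_right x]
  exact Subgroup.mul_mem _ (h2 _) (inr_mem _)

theorem reach_gen {G' : Type} [Group G'] {S : Finset G'} (g : G') {s : G'} (hs : s ∈ S) :
    (cayley S).Reachable g (g * s) := by
  by_cases h : g = g * s
  · rw [← h]
  · exact SimpleGraph.Adj.reachable ⟨h, s, hs, Or.inl rfl⟩

theorem cayley_connected {G' : Type} [Group G'] {S : Finset G'}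
    (hS : Subgroup.closure (S : Set G') = ⊤) : (cayley S).Connected := by
  have key : ∀ x ∈ Subgroup.closure (S : Set G'), ∀ g, (cayley S).Reachable g (g * x) := by
    intro x hx
    induction hx using Subgroup.closure_induction with
    | mem x hx => intro g; exact reach_gen g hx
    | one => intro g; rw [mul_one]
    | mul x y _ _ hx hy => intro g; rw [← mul_assoc]; exact (hx g).trans (hy _)
    | inv x _ hx =>
      intro g
      have := hx (g * x⁻¹)
      rw [inv_mul_cancel_right] at this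
      exact this.symm
  have h2 : ∀ g h, (cayley S).Reachable g h := fun g h => by
    have := key (g⁻¹ * h) (by rw [hS]; trivial) g
    rwa [mul_inv_cancel_left] at this
  exact (SimpleGraph.connected_iff_exists_forall_reachable _).2 ⟨1, h2 1⟩

theorem conn : Γ.Connected := cayley_connected closure_gens

/-- The basic lower bound for distances. -/
theorem walk_bound {x y : G} (p : Γ.Walk x y) :
    |x.right.j - y.right.j| ≤ p.length ∧ ∀ z : ℤ, ¬ (z ∈ x.right.s ↔ z ∈ y.right.s) →
      |x.right.j - z| + |z - y.right.j| ≤ p.length := by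
  induction p with
  | nil => exact ⟨by simp, fun z hz => absurd Iff.rfl hz⟩
  | @cons u v w huv p ih =>
    obtain ⟨ih1, ih2⟩ := ih
    rw [SimpleGraph.Walk.length_cons]
    push_cast
    rw [adj_iff] at huv
    obtain ⟨-, ⟨-, h | h | h | h⟩ | ⟨h, -⟩⟩ := huv
    · rw [Lam.mul_t] at h
      rw [h] at ih1 ih2
      simp only at ih1 ih2
      constructor
      · rcases abs_cases (u.right.j - w.right.j) with e | e <;>
          rcases abs_cases (u.right.j + 1 - w.right.j) with e' | e' <;> omega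
      · intro z hz
        have := ih2 z hz
        rcases abs_cases (u.right.j - z) with e | e <;>
          rcases abs_cases (u.right.j + 1 - z) with e' | e' <;> omega
    · rw [Lam.mul_t] at h
      rw [h]
      simp only
      constructor
      · rcases abs_cases (v.right.j + 1 - w.right.j) with e | e <;>
          rcases abs_cases (v.right.j - w.right.j) with e' | e' <;> omega
      · intro z hz
        have := ih2 z hz
        rcases abs_cases (v.right.j + 1 - z) with e | e <;>
          rcases abs_cases (v.right.j - z) with e' | e' <;> omega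
    · rw [Lam.mul_a] at h
      rw [h] at ih1 ih2
      simp only at ih1 ih2
      refine ⟨by omega, fun z hz => ?_⟩
      by_cases hzj : z = u.right.j
      · subst hzj
        have := abs_nonneg (u.right.j - w.right.j)
        simp
        omega
      · have := ih2 z (by
          rw [Finset.mem_symmDiff, Finset.mem_singleton]
          tauto)
        omega
    · rw [Lam.mul_a] at h
      rw [h]
      simp only
      refine ⟨by omega, fun z hz => ?_⟩
      by_cases hzj : z = v.right.j
      · subst hzj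
        have := abs_nonneg (v.right.j - w.right.j)
        simp
        omega
      · have := ih2 z (by
          rw [Finset.mem_symmDiff, Finset.mem_singleton] at hz
          tauto)
        omega
    · rw [h]
      exact ⟨by omega, fun z hz => by have := ih2 z hz; omega⟩

theorem dist_bound (x y : G) :
    |x.right.j - y.right.j| ≤ Γ.dist x y ∧ ∀ z : ℤ, ¬ (z ∈ x.right.s ↔ z ∈ y.right.s) →
      |x.right.j - z| + |z - y.right.j| ≤ Γ.dist x y := by
  obtain ⟨p, hp⟩ := conn.exists_walk_length_eq_dist x y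
  have := walk_bound p
  rwa [hp] at this

theorem dist_gen (x : G) {s : G} (hs : s ∈ gens) : Γ.dist x (x * s) ≤ 1 := by
  by_cases h : x = x * s
  · rw [← h]; simp
  · exact (SimpleGraph.dist_eq_one_iff_adj.2 (show Γ.Adj x (x * s) from ⟨h, s, hs, Or.inl rfl⟩)).le

theorem dist_t (w : FreeGroup Q) (s : Finset ℤ) (j : ℤ) :
    Γ.dist (⟨w, ⟨s, j⟩⟩ : G) ⟨w, ⟨s, j + 1⟩⟩ ≤ 1 := by
  have := dist_gen (⟨w, ⟨s, j⟩⟩ : G) (s := inr Lam.t) (by simp [mem_gens])
  rwa [mul_inr, Lam.mul_t] at this

theorem dist_a (w : FreeGroup Q) (s : Finset ℤ) (j : ℤ) :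
    Γ.dist (⟨w, ⟨s, j⟩⟩ : G) ⟨w, ⟨symmDiff s {j}, j⟩⟩ ≤ 1 := by
  have := dist_gen (⟨w, ⟨s, j⟩⟩ : G) (s := inr Lam.a) (by simp [mem_gens])
  rwa [mul_inr, Lam.mul_a] at this

/-- The points of the ray. -/
noncomputable def P (n : ℕ) : G := inr ⟨F (kk n), cur (kk n) n⟩

theorem P_right (n : ℕ) : (P n).right = ⟨F (kk n), cur (kk n) n⟩ := rfl

theorem P_step (n : ℕ) : Γ.dist (P n) (P (n + 1)) ≤ 2 := by
  have hkk := kk_inv n
  have e0 : ∀ g : Lam, (inr g : G) = ⟨1, g⟩ := fun g => rfl
  by_cases h : n + 1 < Z (kk n) + w (kk n)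
  · have h1 : kk (n + 1) = kk n := by rw [kk, if_pos h]
    rw [P, P, h1, e0, e0]
    by_cases hk : kk n % 2 = 0
    · have h2 : cur (kk n) (n + 1) = cur (kk n) n + 1 := by
        rw [cur, cur, if_pos hk, if_pos hk]; push_cast; ring
      rw [h2]
      exact (dist_t _ _ _).trans (by norm_num)
    · have h2 : cur (kk n) n = cur (kk n) (n + 1) + 1 := by
        rw [cur, cur, if_neg hk, if_neg hk]; push_cast; ring
      rw [h2, SimpleGraph.dist_comm]
      exact (dist_t _ _ _).trans (by norm_num)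
  · have h1 : kk (n + 1) = kk n + 1 := by rw [kk, if_neg h]
    have h3 : n + 1 = Z (kk n) + w (kk n) := by omega
    have h4 : cur (kk n + 1) (n + 1) = q (kk n) := by
      rw [h3, cur, Z]
      rcases Nat.mod_two_eq_zero_or_one (kk n) with e | e
      · rw [if_neg (by omega), q_even e]; push_cast; ring
      · rw [if_pos (by omega), q_odd e]; push_cast; ring
    have h5 : Γ.dist (P n) ⟨1, ⟨F (kk n), q (kk n)⟩⟩ ≤ 1 := by
      rw [P, e0]
      rcases Nat.mod_two_eq_zero_or_one (kk n) with e | e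
      · have h2 : q (kk n) = cur (kk n) n + 1 := by
          rw [q_even e, cur, if_pos e]; omega
        rw [h2]
        exact dist_t _ _ _
      · have h2 : cur (kk n) n = q (kk n) + 1 := by
          rw [q_odd e, cur, if_neg (by omega)]; omega
        rw [h2, SimpleGraph.dist_comm]
        exact dist_t _ _ _
    have h6 : Γ.dist (⟨1, ⟨F (kk n), q (kk n)⟩⟩ : G) (P (n + 1)) ≤ 1 := by
      rw [P, h1, h4, e0, F]
      exact dist_a _ _ _
    exact (conn.dist_triangle (v := ⟨1, ⟨F (kk n), q (kk n)⟩⟩)).trans (by omega)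

theorem P_lip (n m : ℕ) : Γ.dist (P n) (P (n + m)) ≤ 2 * m := by
  induction m with
  | zero => simp
  | succ m ih =>
    have h1 := P_step (n + m)
    have h2 := conn.dist_triangle (u := P n) (v := P (n + m)) (w := P (n + (m + 1)))
    rw [show n + (m + 1) = n + m + 1 by ring] at h2 ⊢
    omega

theorem P_low {n n' : ℕ} (h : n ≤ n') : (n' : ℤ) - n ≤ 22 * Γ.dist (P n) (P n') := by
  obtain ⟨h1, h2⟩ := dist_bound (P n) (P n')
  exact time_le h h1 h2

/-- The ray passes through the sparse subgroup. -/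
theorem P_C {c : Lam} (hc : c ∈ Lam.C) : ∃ n, P n = inr c := by
  obtain ⟨h0, hs⟩ := hc
  obtain ⟨i, hi⟩ := F_surj c.s hs
  refine ⟨Z (2 * i), ?_⟩
  have h1 : kk (Z (2 * i)) = 2 * i := kk_eq le_rfl (by have := w_pos (2 * i); omega)
  rw [P, h1, hi, cur, if_pos (by omega)]
  congr 1
  ext x
  · rfl
  · simp [h0]

theorem P_lamp (n : ℕ) : (0 : ℤ) ∉ (P n).right.s := by
  rw [P_right]
  simp only
  generalize kk n = k
  induction k with
  | zero => simp [F]
  | succ k ih =>
    rw [mem_F_succ]
    rintro (⟨h, _⟩ | ⟨h, _⟩)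
    · exact ih h
    · have := w_pos k
      rcases Nat.mod_two_eq_zero_or_one k with e | e
      · rw [q_even e] at h; omega
      · rw [q_odd e] at h; omega

/-- The points of the second ray. -/
noncomputable def B (n : ℕ) : G := inr ⟨Finset.Ico 0 (n : ℤ), n⟩

theorem B_step (n : ℕ) : Γ.dist (B n) (B (n + 1)) ≤ 2 := by
  have e0 : ∀ g : Lam, (inr g : G) = ⟨1, g⟩ := fun g => rfl
  have h1 := dist_a 1 (Finset.Ico 0 (n : ℤ)) n
  have h2 : symmDiff (Finset.Ico 0 (n : ℤ)) {(n : ℤ)} = Finset.Ico 0 ((n : ℤ) + 1) := by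
    ext x
    simp only [Finset.mem_symmDiff, Finset.mem_Ico, Finset.mem_singleton]
    omega
  rw [h2] at h1
  have h3 := dist_t 1 (Finset.Ico 0 ((n : ℤ) + 1)) n
  have h4 := conn.dist_triangle (u := (⟨1, ⟨Finset.Ico 0 (n : ℤ), n⟩⟩ : G))
    (v := ⟨1, ⟨Finset.Ico 0 ((n : ℤ) + 1), n⟩⟩) (w := ⟨1, ⟨Finset.Ico 0 ((n : ℤ) + 1), n + 1⟩⟩)
  rw [B, B, e0, e0]
  push_cast
  omega

theorem B_lip (n m : ℕ) : Γ.dist (B n) (B (n + m)) ≤ 2 * m := by
  induction m with
  | zero => simp
  | succ m ih =>
    have h1 := B_step (n + m)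
    have h2 := conn.dist_triangle (u := B n) (v := B (n + m)) (w := B (n + (m + 1)))
    rw [show n + (m + 1) = n + m + 1 by ring] at h2 ⊢
    omega

theorem P_zero : P 0 = 1 := by
  rw [P, kk, F, cur, Z]
  rfl

theorem B_zero : B 0 = 1 := by
  rw [B]
  rfl

theorem B_P (n m : ℕ) : (n : ℤ) + m ≤ 67 * Γ.dist (B n) (P m) := by
  rcases Nat.eq_zero_or_pos n with rfl | hn
  · have := P_low (Nat.zero_le m)
    rw [P_zero] at this
    rw [B_zero]
    push_cast at this ⊢
    omega
  · have h1 : (n : ℤ) ≤ Γ.dist (B n) (P m) := by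
      have h2 := (dist_bound (B n) (P m)).2 0 (by
        intro h
        apply P_lamp m
        rw [← h]
        simp only [B, right_inr, Finset.mem_Ico]
        omega)
      rw [show (B n).right.j = (n : ℤ) from rfl] at h2
      have h3 := abs_nonneg (0 - (P m).right.j)
      rcases abs_cases ((n : ℤ) - 0) with e | e <;> omega
    have h2 := P_low (Nat.zero_le m)
    have h3 := B_lip 0 n
    rw [B_zero, Nat.zero_add] at h3
    rw [P_zero] at h2
    have h4 := conn.dist_triangle (u := (1 : G)) (v := B n) (w := P m)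
    push_cast at h2
    omega

theorem B_low {n m : ℕ} (h : n ≤ m) : (m : ℤ) - n ≤ Γ.dist (B n) (B m) := by
  have h1 := (dist_bound (B n) (B m)).1
  rw [show (B n).right.j = (n : ℤ) from rfl, show (B m).right.j = (m : ℤ) from rfl] at h1
  rcases abs_cases ((n : ℤ) - m) with e | e <;> omega

end Pool.Agent.W392
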