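import Pool.Agent.W392.Grp

set_option autoImplicit false

/-! The group has one end. -/

namespace Pool.Agent.W392

open SemidirectProduct Classical

/-- `x` and `y` are joined by a walk avoiding `F`. -/
def Av {V : Type} (Δ : SimpleGraph V) (F : Set V) (x y : V) : Prop :=
  ∃ p : Δ.Walk x y, ∀ v ∈ p.support, v ∉ F

theorem Av.trans {V : Type} {Δ : SimpleGraph V} {F : Set V} {x y z : V} (h : Av Δ F x y)
    (h' : Av Δ F y z) : Av Δ F x z := by
  obtain ⟨p, hp⟩ := h
  obtain ⟨q, hq⟩ := h'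
  refine ⟨p.append q, fun v hv => ?_⟩
  rw [SimpleGraph.Walk.mem_support_append_iff] at hv
  rcases hv with hv | hv
  · exact hp v hv
  · exact hq v hv

theorem Av.symm {V : Type} {Δ : SimpleGraph V} {F : Set V} {x y : V} (h : Av Δ F x y) :
    Av Δ F y x := by
  obtain ⟨p, hp⟩ := h
  refine ⟨p.reverse, fun v hv => ?_⟩
  rw [SimpleGraph.Walk.support_reverse, List.mem_reverse] at hv
  exact hp v hv

theorem Av.refl {V : Type} {Δ : SimpleGraph V} {F : Set V} {x : V} (h : x ∉ F) : Av Δ F x x :=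
  ⟨SimpleGraph.Walk.nil, by simpa using h⟩

theorem Av.left {V : Type} {Δ : SimpleGraph V} {F : Set V} {x y : V} (h : Av Δ F x y) : x ∉ F := by
  obtain ⟨p, hp⟩ := h
  exact hp x p.start_mem_support

theorem Av.of_adj {V : Type} {Δ : SimpleGraph V} {F : Set V} {x y : V} (h : Δ.Adj x y)
    (hx : x ∉ F) (hy : y ∉ F) : Av Δ F x y := by
  refine ⟨h.toWalk, fun v hv => ?_⟩
  simp only [SimpleGraph.Adj.toWalk, SimpleGraph.Walk.support_cons,
    SimpleGraph.Walk.support_nil, List.mem_cons, List.not_mem_nil, or_false] at hv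
  rcases hv with rfl | rfl
  · exact hx
  · exact hy

theorem Av.map {V W : Type} {Δ : SimpleGraph V} {Δ' : SimpleGraph W} (f : Δ →g Δ') {F : Set V}
    {F' : Set W} (hF : ∀ v, f v ∈ F' → v ∈ F) {x y : V} (h : Av Δ F x y) :
    Av Δ' F' (f x) (f y) := by
  obtain ⟨p, hp⟩ := h
  refine ⟨p.map f, fun v hv => ?_⟩
  rw [SimpleGraph.Walk.support_map, List.mem_map] at hv
  obtain ⟨w, hw, rfl⟩ := hv
  exact fun hh => hp w hw (hF w hh)

theorem Av.comp_eq {V : Type} {Δ : SimpleGraph V} {F : Set V} {x y : V} (h : Av Δ F x y)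
    (hx : x ∉ F) (hy : y ∉ F) : Δ.componentComplMk hx = Δ.componentComplMk hy := by
  obtain ⟨p, hp⟩ := h
  induction p with
  | nil => rfl
  | @cons u v w huv p ih =>
    have hv : v ∉ F := hp v (by simp)
    rw [← ih hv hy (fun z hz => hp z (by simp [hz]))]
    exact SimpleGraph.componentComplMk_eq_of_adj _ hx hv huv

theorem oneEnded_of {V : Type} [Infinite V] {Δ : SimpleGraph V}
    (h : ∀ F : Finset V, ∃ F' : Finset V, ∀ x y, x ∉ F' → y ∉ F' → Av Δ F x y) : OneEnded Δ := by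
  intro F
  obtain ⟨F', hF'⟩ := h F
  obtain ⟨x, hx⟩ := Infinite.exists_notMem_finset F'
  have hxF : x ∉ (F : Set V) := (hF' x x hx hx).left
  have hall : ∀ y, y ∉ F' → ∃ hy : y ∉ (F : Set V), Δ.componentComplMk hy = Δ.componentComplMk hxF :=
    fun y hy => ⟨(hF' y y hy hy).left, (hF' y x hy hx).comp_eq _ _⟩
  refine ⟨Δ.componentComplMk hxF, ?_, ?_⟩
  · have h1 : ((F' : Set V)ᶜ).Infinite := F'.finite_toSet.infinite_compl
    refine h1.mono (fun y hy => ?_)
    exact SimpleGraph.ComponentCompl.mem_supp_iff.2 (hall y hy)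
  · intro A hA
    obtain ⟨y, hyA, hy⟩ := hA.exists_notMem_finset F'
    obtain ⟨hy1, hy2⟩ := SimpleGraph.ComponentCompl.mem_supp_iff.1 hyA
    obtain ⟨hy3, hy4⟩ := hall y hy
    rw [← hy2, ← hy4]

/-- The Cayley graph of the lamplighter group. -/
noncomputable abbrev ΓL : SimpleGraph Lam := cayley {Lam.t, Lam.a}

theorem adjL {x y : Lam} : ΓL.Adj x y ↔ x ≠ y ∧
    (y = ⟨x.s, x.j + 1⟩ ∨ x = ⟨y.s, y.j + 1⟩ ∨ y = ⟨symmDiff x.s {x.j}, x.j⟩ ∨
      x = ⟨symmDiff y.s {y.j}, y.j⟩) := by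
  change x ≠ y ∧ (∃ s ∈ ({Lam.t, Lam.a} : Finset Lam), y = x * s ∨ x = y * s) ↔ _
  simp only [Finset.mem_insert, Finset.mem_singleton, exists_eq_or_imp, exists_eq_left,
    Lam.mul_t, Lam.mul_a]
  tauto

theorem connL : ΓL.Connected := cayley_connected (by simpa using Lam.closure_eq_top)

/-- Switch the lamp `z` on. -/
def setOn (z : ℤ) (g : Lam) : Lam := ⟨insert z g.s, g.j⟩

theorem setOn_adj (z : ℤ) {g h : Lam} (hh : ΓL.Adj g h) :
    Av ΓL {v | z ∉ v.s} (setOn z g) (setOn z h) := by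
  have hmem : ∀ v, setOn z v ∉ {v : Lam | z ∉ v.s} := fun v => by simp [setOn]
  by_cases he : setOn z g = setOn z h
  · rw [he]; exact Av.refl (hmem _)
  · apply Av.of_adj _ (hmem _) (hmem _)
    have key : ∀ s : Finset ℤ, ∀ j : ℤ, j ≠ z →
        insert z (symmDiff s {j}) = symmDiff (insert z s) {j} := by
      intro s j hj
      ext x
      simp only [Finset.mem_insert, Finset.mem_symmDiff, Finset.mem_singleton]
      by_cases hx : x = z
      · subst hx
        have : ¬ (x = j) := fun e => hj e.symm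
        simp [this]
      · simp [hx]
    have key2 : ∀ s : Finset ℤ, insert z (symmDiff s {z}) = insert z s := by
      intro s
      ext x
      simp only [Finset.mem_insert, Finset.mem_symmDiff, Finset.mem_singleton]
      by_cases hx : x = z <;> simp [hx]
    rw [adjL] at hh ⊢
    refine ⟨he, ?_⟩
    rcases hh.2 with h1 | h1 | h1 | h1
    · left; rw [h1]; rfl
    · right; left; rw [h1]; rfl
    · by_cases hz : g.j = z
      · exfalso
        apply he
        rw [h1, setOn, setOn]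
        simp only
        rw [hz, key2]
      · right; right; left
        rw [h1, setOn, setOn]
        simp only
        rw [key _ _ hz]
    · by_cases hz : h.j = z
      · exfalso
        apply he
        rw [h1, setOn, setOn]
        simp only
        rw [hz, key2]
      · right; right; right
        rw [h1, setOn, setOn]
        simp only
        rw [key _ _ hz]

theorem conn_on {z : ℤ} {g h : Lam} (hg : z ∈ g.s) (hh : z ∈ h.s) :
    Av ΓL {v | z ∉ v.s} g h := by
  have key : ∀ g h : Lam, ∀ p : ΓL.Walk g h, Av ΓL {v | z ∉ v.s} (setOn z g) (setOn z h) := by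
    intro g h p
    induction p with
    | nil => exact Av.refl (by simp [setOn])
    | cons huv p ih => exact (setOn_adj z huv).trans ih
  obtain ⟨p⟩ := connL.preconnected g h
  have := key g h p
  have e : ∀ v : Lam, z ∈ v.s → setOn z v = v := fun v hv => by
    rw [setOn, Finset.insert_eq_of_mem hv]
  rwa [e g hg, e h hh] at this

theorem Av.mono {V : Type} {Δ : SimpleGraph V} {F F' : Set V} {x y : V} (h : Av Δ F x y)
    (hF : F' ⊆ F) : Av Δ F' x y := by
  obtain ⟨p, hp⟩ := h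
  exact ⟨p, fun v hv hh => hp v hv (hF hh)⟩

/-- A finite box. -/
def Box (M : ℕ) : Set Lam := {g | |g.j| ≤ M ∧ ∀ x ∈ g.s, |x| ≤ M}

theorem box_finite (M : ℕ) : (Box M).Finite := by
  apply Set.Finite.of_finite_image (f := fun g : Lam => (g.s, g.j))
  · apply Set.Finite.subset (((Finset.Icc (-(M:ℤ)) M).powerset ×ˢ (Finset.Icc (-(M:ℤ)) M)).finite_toSet)
    rintro _ ⟨g, hg, rfl⟩
    simp only [Finset.coe_product, Set.mem_prod, Finset.mem_coe, Finset.mem_powerset,
      Finset.mem_Icc]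
    exact ⟨fun x hx => Finset.mem_Icc.2 (abs_le.1 (hg.2 x hx)), abs_le.1 hg.1⟩
  · intro g _ h _ hgh
    simp only [Prod.mk.injEq] at hgh
    exact Lam.ext hgh.1 hgh.2

theorem exists_box (F : Finset Lam) : ∃ M : ℕ, ∀ g ∈ F, g ∈ Box M := by
  have h1 : ∀ s : Finset ℤ, ∀ x ∈ s, |x| ≤ (∑ x ∈ s, x.natAbs : ℕ) := by
    intro s x hx
    have h1 := Finset.single_le_sum (f := fun x : ℤ => x.natAbs) (fun _ _ => Nat.zero_le _) hx
    have h2 : |x| = (x.natAbs : ℤ) := by simp
    rw [h2]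
    exact Nat.cast_le.2 h1
  refine ⟨∑ g ∈ F, (g.j.natAbs + ∑ x ∈ g.s, x.natAbs), fun g hg => ?_⟩
  have h2 := Finset.single_le_sum (f := fun g : Lam => g.j.natAbs + ∑ x ∈ g.s, x.natAbs)
    (fun _ _ => Nat.zero_le _) hg
  have h2' : g.j.natAbs + ∑ x ∈ g.s, x.natAbs ≤ ∑ g ∈ F, (g.j.natAbs + ∑ x ∈ g.s, x.natAbs) := h2
  have h4 : ((g.j.natAbs + ∑ x ∈ g.s, x.natAbs : ℕ) : ℤ) ≤
      (∑ g ∈ F, (g.j.natAbs + ∑ x ∈ g.s, x.natAbs) : ℕ) := Nat.cast_le.2 h2'
  rw [Nat.cast_add] at h4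
  constructor
  · have h3 : |g.j| = (g.j.natAbs : ℤ) := by simp
    rw [h3]
    have : (0 : ℤ) ≤ ((∑ x ∈ g.s, x.natAbs : ℕ) : ℤ) := Nat.cast_nonneg _
    omega
  · intro x hx
    have h3 := h1 g.s x hx
    have : (0 : ℤ) ≤ (g.j.natAbs : ℤ) := Nat.cast_nonneg _
    omega

theorem escape {M : ℕ} {g : Lam} (hg : g ∉ Box M) :
    ∃ z : ℤ, ∃ g' : Lam, (M : ℤ) < |z| ∧ z ∈ g'.s ∧ Av ΓL (Box M) g g' := by
  by_cases h1 : ∃ x ∈ g.s, (M : ℤ) < |x|
  · obtain ⟨x, hx, hM⟩ := h1
    exact ⟨x, g, hM, hx, Av.refl hg⟩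
  · push Not at h1
    have h2 : (M : ℤ) < |g.j| := by
      by_contra h2
      exact hg ⟨not_lt.1 h2, h1⟩
    have h3 : g.j ∉ g.s := fun h => absurd (h1 _ h) (by omega)
    have h4 : g.j ∈ symmDiff g.s {g.j} := by
      rw [Finset.mem_symmDiff]; right; simp [h3]
    refine ⟨g.j, ⟨symmDiff g.s {g.j}, g.j⟩, h2, h4, Av.of_adj ?_ hg ?_⟩
    · rw [adjL]
      refine ⟨?_, Or.inr (Or.inr (Or.inl rfl))⟩
      intro h
      apply h3
      rw [h]
      simpa using h4
    · intro h
      exact absurd (h.2 _ h4) (by omega)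

theorem oneL (F : Finset Lam) : ∃ F' : Finset Lam, ∀ x y, x ∉ F' → y ∉ F' → Av ΓL F x y := by
  obtain ⟨M, hM⟩ := exists_box F
  refine ⟨(box_finite M).toFinset, fun x y hx hy => ?_⟩
  rw [Set.Finite.mem_toFinset] at hx hy
  obtain ⟨z, x', hz, hzx, h1⟩ := escape hx
  obtain ⟨z', y', hz', hzy, h2⟩ := escape hy
  have hbox : ∀ z : ℤ, (M : ℤ) < |z| → Box M ⊆ {v : Lam | z ∉ v.s} := by
    intro z hz v hv hzv
    exact absurd (hv.2 z hzv) (by omega)
  have h3 : Av ΓL (Box M) x' ⟨{z, z'}, 0⟩ :=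
    (conn_on (z := z) hzx (by simp)).mono (hbox z hz)
  have h4 : Av ΓL (Box M) ⟨{z, z'}, 0⟩ y' :=
    (conn_on (z := z') (by simp) hzy).mono (hbox z' hz')
  exact (((h1.trans h3).trans h4).trans h2.symm).mono (fun v hv => hM v hv)

/-- The copy of the lamplighter graph. -/
noncomputable def slice (w : FreeGroup Q) : ΓL →g Γ where
  toFun g := ⟨w, g⟩
  map_rel' := by
    intro x y h
    rw [adj_iff]
    rw [adjL] at h
    refine ⟨fun e => h.1 (congrArg SemidirectProduct.right e), Or.inl ⟨rfl, ?_⟩⟩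
    simp only [Lam.mul_t, Lam.mul_a]
    exact h.2

/-- Elements of the sparse subgroup. -/
def eC (m : ℕ) : Lam := ⟨{4 ^ m, -4 ^ m}, 0⟩

theorem eC_mem (m : ℕ) : eC m ∈ Lam.C := by
  rw [Lam.mem_C]
  refine ⟨rfl, fun x hx => ?_⟩
  simp only [eC, Finset.mem_insert, Finset.mem_singleton] at hx ⊢
  have hp : (0 : ℤ) < 4 ^ m := by positivity
  rcases hx with rfl | rfl
  · exact ⟨by simp, m, abs_of_pos hp⟩
  · exact ⟨by simp, m, by rw [abs_neg, abs_of_pos hp]⟩

theorem eC_inj : Function.Injective eC := by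
  intro m m' h
  have h1 : ((4 : ℤ) ^ m) ∈ (eC m').s := by rw [← h]; simp [eC]
  simp only [eC, Finset.mem_insert, Finset.mem_singleton] at h1
  have hp : (0 : ℤ) < 4 ^ m := by positivity
  have hp' : (0 : ℤ) < 4 ^ m' := by positivity
  rcases h1 with h1 | h1
  · exact Nat.pow_right_injective (by norm_num : 2 ≤ 4) (by exact_mod_cast h1)
  · omega

theorem coset_infinite (x : Q) : {c : Lam | c • x0 = x}.Infinite := by
  obtain ⟨g, rfl⟩ := exists_smul x
  apply Set.infinite_of_injective_forall_mem (f := fun m => g * eC m)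
  · intro m m' h
    exact eC_inj (mul_left_cancel h)
  · intro m
    have : eC m • x0 = x0 := by
      rw [x0, MulAction.Quotient.smul_mk, smul_eq_mul, mul_one, eq_comm, QuotientGroup.eq]
      simpa using eC_mem m
    simp only [Set.mem_ofPred_eq, mul_smul, this]

instance : Infinite G := by
  have : Function.Injective (fun m : ℕ => (inr (eC m) : G)) := fun m m' h =>
    eC_inj (SemidirectProduct.inr_injective h)
  exact Infinite.of_injective _ this

theorem slices_adj {F : Finset G} {E : FreeGroup Q → Finset Lam}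
    (hE : ∀ w g h, g ∉ E w → h ∉ E w → Av Γ F (⟨w, g⟩ : G) ⟨w, h⟩) (w : FreeGroup Q) (x : Q)
    {g h : Lam} (hg : g ∉ E w) (hh : h ∉ E (w * FreeGroup.of x)) :
    Av Γ F (⟨w, g⟩ : G) ⟨w * FreeGroup.of x, h⟩ := by
  obtain ⟨c, hc, hcE⟩ := (coset_infinite x).exists_notMem_finset (E w ∪ E (w * FreeGroup.of x))
  rw [Finset.mem_union, not_or] at hcE
  have h1 := hE w g c hg hcE.1
  have h2 := hE (w * FreeGroup.of x) c h hcE.2 hh
  refine h1.trans (Av.trans (Av.of_adj ?_ h1.symm.left h2.left) h2)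
  rw [adj_iff]
  refine ⟨fun e => ?_, Or.inr ⟨rfl, Or.inl ?_⟩⟩
  · have e1 : w = w * FreeGroup.of x := congrArg SemidirectProduct.left e
    simp at e1
  · rw [show c • x0 = x from hc]

theorem slices {F : Finset G} {E : FreeGroup Q → Finset Lam}
    (hE : ∀ w g h, g ∉ E w → h ∉ E w → Av Γ F (⟨w, g⟩ : G) ⟨w, h⟩) (w : FreeGroup Q) :
    ∀ (u : FreeGroup Q) (g h : Lam), g ∉ E u → h ∉ E (u * w) →
      Av Γ F (⟨u, g⟩ : G) ⟨u * w, h⟩ := by
  have hinf : Infinite Lam := Infinite.of_injective _ eC_inj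
  induction w using FreeGroup.induction_on with
  | C1 => intro u g h hg hh; rw [mul_one] at hh ⊢; exact hE u g h hg hh
  | of x => intro u g h hg hh; exact slices_adj hE u x hg hh
  | inv_of x _ =>
    intro u g h hg hh
    have h1 := slices_adj hE (u * (FreeGroup.of x)⁻¹) x hh (h := g)
      (by rw [inv_mul_cancel_right]; exact hg)
    rw [inv_mul_cancel_right] at h1
    exact h1.symm
  | mul x y hx hy =>
    intro u g h hg hh
    obtain ⟨c, hc⟩ := Infinite.exists_notMem_finset (E (u * x))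
    rw [← mul_assoc] at hh ⊢
    exact (hx u g c hg hc).trans (hy (u * x) c h hc hh)

theorem oneEnded : OneEnded Γ := by
  apply oneEnded_of
  intro F
  have hex : ∀ w : FreeGroup Q, ∃ E : Finset Lam,
      (∀ g h, g ∉ E → h ∉ E → Av Γ F (⟨w, g⟩ : G) ⟨w, h⟩) ∧
      (w ∉ F.image (fun x => x.left) → E = ∅) := by
    intro w
    by_cases hw : w ∈ F.image (fun x => x.left)
    · obtain ⟨E, hE⟩ := oneL ((F.filter (fun x => x.left = w)).image (fun x => x.right))
      refine ⟨E, fun g h hg hh => ?_, fun h => absurd hw h⟩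
      apply Av.map (slice w) _ (hE g h hg hh)
      intro v hv
      simp only [Finset.coe_image, Finset.coe_filter, Set.mem_image]
      exact ⟨_, ⟨hv, rfl⟩, rfl⟩
    · refine ⟨∅, fun g h _ _ => ?_, fun _ => rfl⟩
      obtain ⟨p⟩ := connL.preconnected g h
      apply Av.map (slice w) (F := ∅) _ ⟨p, fun v _ => Set.notMem_empty v⟩
      intro v hv
      exact absurd (Finset.mem_image.2 ⟨_, hv, rfl⟩) hw
  choose E hE1 hE2 using hex
  refine ⟨(F.image (fun x => x.left)).biUnion (fun w => (E w).image (fun g => (⟨w, g⟩ : G))), ?_⟩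
  have hout : ∀ x : G, x ∉ (F.image (fun x => x.left)).biUnion
      (fun w => (E w).image (fun g => (⟨w, g⟩ : G))) → x.right ∉ E x.left := by
    intro x hx hxE
    by_cases hw : x.left ∈ F.image (fun x => x.left)
    · apply hx
      rw [Finset.mem_biUnion]
      exact ⟨x.left, hw, Finset.mem_image.2 ⟨x.right, hxE, rfl⟩⟩
    · rw [hE2 _ hw] at hxE
      exact absurd hxE (Finset.notMem_empty _)
  intro x y hx hy
  have h1 := slices hE1 (x.left⁻¹ * y.left) x.left x.right y.right (hout x hx)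
    (by rw [mul_inv_cancel_left]; exact hout y hy)
  rw [mul_inv_cancel_left] at h1
  exact h1

end Pool.Agent.W392
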