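import Pool.Agent.W392.Grp

set_option autoImplicit false

/-! The quasi-ray and the quasiline coarsely separate the Cayley graph. -/

namespace Pool.Agent.W392

open SemidirectProduct Classical

/-- Multiplying by a letter on the left changes the last letter only in trivial cases. -/
theorem last_letter {α : Type} [DecidableEq α] (v : FreeGroup α) (p l : α × Bool)
    (h : ¬ ((v.toWord.getLast? = some l) ↔ ((FreeGroup.mk [p] * v).toWord.getLast? = some l))) :
    (v = 1 ∧ p = l) ∨ (FreeGroup.mk [p] * v = 1 ∧ (p.1, !p.2) = l) := by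
  have h1 : (FreeGroup.mk [p] * v).toWord = FreeGroup.reduce (p :: v.toWord) := by
    conv_lhs => rw [← FreeGroup.mk_toWord (x := v), FreeGroup.mul_mk, FreeGroup.toWord_mk]
    rfl
  rw [FreeGroup.reduce.cons, FreeGroup.reduce_toWord] at h1
  rcases hv : v.toWord with _ | ⟨hd, tl⟩
  · left
    have hv1 : v = 1 := FreeGroup.toWord_eq_nil_iff.1 hv
    rw [hv] at h1 h
    simp only at h1
    rw [h1] at h
    refine ⟨hv1, ?_⟩
    by_contra hne
    apply h
    simp [hne]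
  · rw [hv] at h1 h
    simp only at h1
    split_ifs at h1 with hc
    · rw [h1] at h
      rcases tl with _ | ⟨x, tl⟩
      · right
        refine ⟨FreeGroup.toWord_eq_nil_iff.1 h1, ?_⟩
        by_contra hne
        apply h
        have : hd = (p.1, !p.2) := by
          ext
          · exact hc.1.symm
          · rw [hc.2]; simp
        rw [this]
        simp [hne]
      · exact absurd (by simp) h
    · rw [h1] at h
      exact absurd (by simp) h

/-- The half of the group beyond the base edge. -/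
def Side (x : G) : Prop := (x.left⁻¹).toWord.getLast? = some (x0, false)

theorem smul_x0 {g : Lam} : g • x0 = x0 ↔ g ∈ Lam.C := by
  rw [x0, MulAction.Quotient.smul_mk, smul_eq_mul, mul_one, eq_comm, QuotientGroup.eq]
  simp

theorem side_change {x y : G} (h : Γ.Adj x y) (hx : Side x) (hy : ¬ Side y) :
    ∃ c ∈ Lam.C, y = inr c := by
  rw [adj_iff] at h
  obtain ⟨-, ⟨h1, -⟩ | ⟨h1, h2 | h2⟩⟩ := h
  · exact absurd (by unfold Side at hx ⊢; rwa [← h1]) hy
  · exfalso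
    have e : (y.left)⁻¹ = FreeGroup.mk [(x.right • x0, false)] * (x.left)⁻¹ := by
      rw [h2, mul_inv_rev]; rfl
    unfold Side at hx hy
    rw [e] at hy
    rcases last_letter _ _ _ (fun hh => hy (hh.1 hx)) with ⟨h3, _⟩ | ⟨_, h4⟩
    · rw [h3] at hx; simp at hx
    · simp at h4
  · have e : (y.left)⁻¹ = FreeGroup.mk [(x.right • x0, true)] * (x.left)⁻¹ := by
      rw [h2, mul_inv_rev, ← mul_assoc]
      change _ = FreeGroup.of _ * (FreeGroup.of _)⁻¹ * _
      rw [mul_inv_cancel, one_mul]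
    unfold Side at hx hy
    rw [e] at hy
    rcases last_letter _ _ _ (fun hh => hy (hh.1 hx)) with ⟨h3, _⟩ | ⟨h3, h4⟩
    · rw [h3] at hx; simp at hx
    · have h5 : x.right • x0 = x0 := by simpa using congrArg Prod.fst h4
      refine ⟨x.right, smul_x0.1 h5, ?_⟩
      rw [← e] at h3
      refine ext' ?_ ?_
      · simpa using h3
      · simp [h1]

theorem side_walk {N : Set G} (hN : ∀ c ∈ Lam.C, (inr c : G) ∈ N) {x y : (Nᶜ : Set G)}
    (p : (Γ.induce Nᶜ).Walk x y) (hx : Side x) : Side y := by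
  induction p with
  | nil => exact hx
  | @cons u v w huv p ih =>
    apply ih
    by_contra hv
    obtain ⟨c, hc, h⟩ := side_change (SimpleGraph.comap_adj.1 huv) hx hv
    have h1 := hN c hc
    rw [← h] at h1
    exact v.2 h1

theorem side_one {x : G} (h : x.left = 1) : ¬ Side x := by
  unfold Side
  rw [h]
  simp

theorem side_of {x : G} (h : x.left = FreeGroup.of x0) : Side x := by
  unfold Side
  rw [h]
  simp [FreeGroup.toWord_inv, FreeGroup.invRev]

/-- The criterion for coarse separation. -/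
theorem sep {Y : Set G} (hC : ∀ c ∈ Lam.C, (inr c : G) ∈ Y)
    (hY : ∀ y ∈ Y, ∀ (n : ℕ) (x : G), x.right = ⟨{0}, -n⟩ → n ≤ Γ.dist x y) :
    CoarselySeparates Γ Y := by
  have hout : ∀ (R n : ℕ) (x : G), x.right = ⟨{0}, -n⟩ → R < n → x ∉ nbhd Γ R Y := by
    rintro R n x hx hR ⟨y, hy, hd⟩
    have := hY y hy n x hx
    omega
  have hcomp : ∀ (u : FreeGroup Q) (n : ℕ) (hn : 2 ≤ n),
      Γ.componentComplMk (hout 1 n ⟨u, ⟨{0}, -(n : ℤ)⟩⟩ rfl (by omega)) =
      Γ.componentComplMk (hout 1 2 ⟨u, ⟨{0}, -((2 : ℕ) : ℤ)⟩⟩ rfl (by omega)) := by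
    intro u n hn
    induction n, hn using Nat.le_induction with
    | base => rfl
    | succ n hn ih =>
      rw [← ih]
      apply SimpleGraph.componentComplMk_eq_of_adj
      rw [adj_iff]
      refine ⟨?_, Or.inl ⟨rfl, Or.inl ?_⟩⟩
      · intro h
        have := congrArg (fun x : G => x.right.j) h
        simp at this
      · rw [Lam.mul_t]
        ext x
        · simp
        · simp
  refine ⟨1, one_pos, Γ.componentComplMk (hout 1 2 ⟨1, ⟨{0}, -((2 : ℕ) : ℤ)⟩⟩ rfl (by omega)),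
    Γ.componentComplMk (hout 1 2 ⟨FreeGroup.of x0, ⟨{0}, -((2 : ℕ) : ℤ)⟩⟩ rfl (by omega)), ?_, ?_⟩
  · intro h
    have h1 := SimpleGraph.ConnectedComponent.exact h
    obtain ⟨p⟩ := h1.symm
    exact side_one (x := ⟨1, ⟨{0}, -((2 : ℕ) : ℤ)⟩⟩) rfl
      (side_walk (N := nbhd Γ 1 Y) (fun c hc => ⟨inr c, hC c hc, by simp⟩) p (side_of rfl))
  · intro R
    constructor
    · refine ⟨⟨1, ⟨{0}, -((R + 2 : ℕ) : ℤ)⟩⟩, ?_, hout R (R + 2) _ rfl (by omega)⟩
      rw [SimpleGraph.ComponentCompl.mem_supp_iff]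
      exact ⟨_, hcomp 1 (R + 2) (by omega)⟩
    · refine ⟨⟨FreeGroup.of x0, ⟨{0}, -((R + 2 : ℕ) : ℤ)⟩⟩, ?_, hout R (R + 2) _ rfl (by omega)⟩
      rw [SimpleGraph.ComponentCompl.mem_supp_iff]
      exact ⟨_, hcomp (FreeGroup.of x0) (R + 2) (by omega)⟩

theorem deep_P (m n : ℕ) (x : G) (hx : x.right = ⟨{0}, -n⟩) : n ≤ Γ.dist x (P m) := by
  have h2 := (dist_bound x (P m)).2 0 (by
    rw [hx]
    intro h
    exact P_lamp m (h.1 (by simp)))
  rw [hx] at h2
  have h3 := abs_nonneg (0 - (P m).right.j)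
  simp only at h2
  rcases abs_cases (-(n : ℤ) - 0) with e | e <;> omega

theorem deep_B (m n : ℕ) (x : G) (hx : x.right = ⟨{0}, -n⟩) : n ≤ Γ.dist x (B m) := by
  have h2 := (dist_bound x (B m)).1
  rw [hx, show (B m).right.j = (m : ℤ) from rfl] at h2
  simp only at h2
  rcases abs_cases (-(n : ℤ) - m) with e | e <;> omega

theorem floor_diff {x y : ℝ} (hx : 0 ≤ x) (hy : 0 ≤ y) :
    |((⌊x⌋₊ : ℕ) : ℝ) - (⌊y⌋₊ : ℕ)| ≤ |x - y| + 1 ∧
      |x - y| ≤ |((⌊x⌋₊ : ℕ) : ℝ) - (⌊y⌋₊ : ℕ)| + 1 := by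
  have h1 := Nat.floor_le hx
  have h2 := Nat.lt_floor_add_one x
  have h3 := Nat.floor_le hy
  have h4 := Nat.lt_floor_add_one y
  constructor
  · rcases abs_cases ((⌊x⌋₊ : ℝ) - (⌊y⌋₊ : ℕ)) with h | h <;>
      rcases abs_cases (x - y) with h' | h' <;> linarith
  · rcases abs_cases ((⌊x⌋₊ : ℝ) - (⌊y⌋₊ : ℕ)) with h | h <;>
      rcases abs_cases (x - y) with h' | h' <;> linarith

theorem P_dist (n m : ℕ) : (Γ.dist (P n) (P m) : ℝ) ≤ 2 * |(n : ℝ) - m| ∧
    |(n : ℝ) - m| ≤ 22 * Γ.dist (P n) (P m) := by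
  have key : ∀ n m : ℕ, n ≤ m → (Γ.dist (P n) (P m) : ℝ) ≤ 2 * |(n : ℝ) - m| ∧
    |(n : ℝ) - m| ≤ 22 * Γ.dist (P n) (P m) := by
    intro n m h
    obtain ⟨k, rfl⟩ := Nat.exists_eq_add_of_le h
    have h1 := P_lip n k
    have h2 := P_low h
    have e : |(n : ℝ) - (n + k : ℕ)| = k := by
      push_cast
      rw [show (n : ℝ) - (n + k) = -k by ring, abs_neg, abs_of_nonneg (by positivity)]
    rw [e]
    constructor
    · exact_mod_cast h1
    · have h3 : (k : ℤ) ≤ 22 * Γ.dist (P n) (P (n + k)) := by push_cast at h2; omega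
      exact_mod_cast h3
  rcases le_total n m with h | h
  · exact key n m h
  · rw [SimpleGraph.dist_comm, abs_sub_comm]
    exact key m n h

theorem B_dist (n m : ℕ) : (Γ.dist (B n) (B m) : ℝ) ≤ 2 * |(n : ℝ) - m| ∧
    |(n : ℝ) - m| ≤ 22 * Γ.dist (B n) (B m) := by
  have key : ∀ n m : ℕ, n ≤ m → (Γ.dist (B n) (B m) : ℝ) ≤ 2 * |(n : ℝ) - m| ∧
    |(n : ℝ) - m| ≤ 22 * Γ.dist (B n) (B m) := by
    intro n m h
    obtain ⟨k, rfl⟩ := Nat.exists_eq_add_of_le h
    have h1 := B_lip n k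
    have h2 := B_low h
    have e : |(n : ℝ) - (n + k : ℕ)| = k := by
      push_cast
      rw [show (n : ℝ) - (n + k) = -k by ring, abs_neg, abs_of_nonneg (by positivity)]
    rw [e]
    constructor
    · exact_mod_cast h1
    · have h3 : (k : ℤ) ≤ 22 * Γ.dist (B n) (B (n + k)) := by push_cast at h2; omega
      exact_mod_cast h3
  rcases le_total n m with h | h
  · exact key n m h
  · rw [SimpleGraph.dist_comm, abs_sub_comm]
    exact key m n h

theorem BP_dist (n m : ℕ) : (Γ.dist (B n) (P m) : ℝ) ≤ 2 * (n + m) ∧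
    (n : ℝ) + m ≤ 67 * Γ.dist (B n) (P m) := by
  constructor
  · have h1 := B_lip 0 n
    have h2 := P_lip 0 m
    rw [B_zero, Nat.zero_add, SimpleGraph.dist_comm] at h1
    rw [P_zero, Nat.zero_add] at h2
    have h3 := conn.dist_triangle (u := B n) (v := (1 : G)) (w := P m)
    have h4 : Γ.dist (B n) (P m) ≤ 2 * (n + m) := by omega
    exact_mod_cast h4
  · exact_mod_cast B_P n m

theorem quasiRay : IsQIEmbedding Γ (Set.Ici 0) (fun x => P ⌊x⌋₊) := by
  refine ⟨100, by norm_num, fun x hx y hy => ?_⟩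
  obtain ⟨h1, h2⟩ := floor_diff hx hy
  obtain ⟨h3, h4⟩ := P_dist ⌊x⌋₊ ⌊y⌋₊
  have h5 := abs_nonneg (x - y)
  constructor
  · linarith
  · linarith

/-- The quasiline. -/
noncomputable def fl (x : ℝ) : G := if 0 ≤ x then P ⌊x⌋₊ else B ⌊-x⌋₊

theorem quasiLine : IsQIEmbedding Γ Set.univ fl := by
  refine ⟨100, by norm_num, ?_⟩
  have mixed : ∀ x y : ℝ, x < 0 → 0 ≤ y → |x - y| / 100 - 100 ≤ (Γ.dist (fl x) (fl y) : ℝ) ∧
      (Γ.dist (fl x) (fl y) : ℝ) ≤ 100 * |x - y| + 100 := by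
    intro x y hx hy
    rw [fl, fl, if_neg (by linarith), if_pos hy]
    obtain ⟨h3, h4⟩ := BP_dist ⌊-x⌋₊ ⌊y⌋₊
    have e1 := Nat.floor_le (show 0 ≤ -x by linarith)
    have e2 := Nat.lt_floor_add_one (-x)
    have e3 := Nat.floor_le hy
    have e4 := Nat.lt_floor_add_one y
    rw [abs_of_neg (by linarith : x - y < 0)]
    constructor
    · linarith
    · linarith
  intro x _ y _
  rcases lt_or_ge x 0 with hx | hx <;> rcases lt_or_ge y 0 with hy | hy
  · rw [fl, fl, if_neg (by linarith), if_neg (by linarith)]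
    obtain ⟨h1, h2⟩ := floor_diff (show 0 ≤ -x by linarith) (show 0 ≤ -y by linarith)
    rw [show -x - -y = -(x - y) by ring, abs_neg] at h1 h2
    obtain ⟨h3, h4⟩ := B_dist ⌊-x⌋₊ ⌊-y⌋₊
    have h5 := abs_nonneg (x - y)
    constructor
    · linarith
    · linarith
  · exact mixed x y hx hy
  · rw [SimpleGraph.dist_comm, abs_sub_comm]
    exact mixed y x hy hx
  · rw [fl, fl, if_pos hx, if_pos hy]
    obtain ⟨h1, h2⟩ := floor_diff hx hy
    obtain ⟨h3, h4⟩ := P_dist ⌊x⌋₊ ⌊y⌋₊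
    have h5 := abs_nonneg (x - y)
    constructor
    · linarith
    · linarith

theorem ray_separates : ∃ Y : Set G, IsQuasiRay Γ Y ∧ CoarselySeparates Γ Y := by
  refine ⟨_, ⟨_, quasiRay, rfl⟩, sep ?_ ?_⟩
  · intro c hc
    obtain ⟨n, hn⟩ := P_C hc
    exact ⟨n, by simp, by simp [hn]⟩
  · rintro _ ⟨y, _, rfl⟩ n x hx
    exact deep_P _ n x hx

theorem line_separates : ∃ Y : Set G, IsQuasiLine Γ Y ∧ CoarselySeparates Γ Y := by
  refine ⟨_, ⟨_, quasiLine, rfl⟩, sep ?_ ?_⟩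
  · intro c hc
    obtain ⟨n, hn⟩ := P_C hc
    exact ⟨n, by rw [fl, if_pos (by positivity), Nat.floor_natCast, hn]⟩
  · rintro _ ⟨y, rfl⟩ n x hx
    rw [fl]
    split_ifs
    · exact deep_P _ n x hx
    · exact deep_B _ n x hx

end Pool.Agent.W392
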