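import Mathlib

set_option autoImplicit false

/-! Cayley graphs, ends, quasi-rays, quasi-lines, coarse separation, splittings, surface groups. -/

namespace Pool.Agent.W392

/-- The Cayley graph of `G` with respect to the finite set `S`: the elements `g` and `g * s` are
joined by an edge, for `g` in `G` and `s` in `S`. -/
def cayley {G : Type} [Group G] (S : Finset G) : SimpleGraph G where
  Adj g h := g ≠ h ∧ ∃ s ∈ S, h = g * s ∨ g = h * s
  symm := ⟨by
    rintro g h ⟨h1, s, hs, h2⟩
    exact ⟨h1.symm, s, hs, h2.symm⟩⟩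
  loopless := ⟨fun g h => h.1 rfl⟩

/-- The graph has one end: the complement of every finite set of vertices has exactly one
infinite connected component. -/
def OneEnded {V : Type} (Γ : SimpleGraph V) : Prop :=
  ∀ F : Finset V, ∃! A : Γ.ComponentCompl (F : Set V), (A : Set V).Infinite

/-- The closed `r`-neighbourhood of the set `Y`. -/
def nbhd {V : Type} (Γ : SimpleGraph V) (r : ℕ) (Y : Set V) : Set V :=
  {v | ∃ y ∈ Y, Γ.dist v y ≤ r}

/-- `Y` coarsely separates the graph: for some `r > 0` there are two different connected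
components of the complement of the `r`-neighbourhood of `Y` which both contain, for every `R`,
vertices at distance more than `R` from `Y`. -/
def CoarselySeparates {V : Type} (Γ : SimpleGraph V) (Y : Set V) : Prop :=
  ∃ r : ℕ, 0 < r ∧ ∃ A B : Γ.ComponentCompl (nbhd Γ r Y), A ≠ B ∧
    ∀ R : ℕ, (∃ a ∈ A, a ∉ nbhd Γ R Y) ∧ (∃ b ∈ B, b ∉ nbhd Γ R Y)

/-- `f` is a quasi-isometric embedding of the subset `I` of the real line in the graph. -/
def IsQIEmbedding {V : Type} (Γ : SimpleGraph V) (I : Set ℝ) (f : ℝ → V) : Prop :=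
  ∃ K : ℝ, 1 ≤ K ∧ ∀ x ∈ I, ∀ y ∈ I,
    |x - y| / K - K ≤ (Γ.dist (f x) (f y) : ℝ) ∧ (Γ.dist (f x) (f y) : ℝ) ≤ K * |x - y| + K

/-- `Y` is a quasi-ray: the image of a quasi-isometric embedding of `[0, ∞)`. -/
def IsQuasiRay {V : Type} (Γ : SimpleGraph V) (Y : Set V) : Prop :=
  ∃ f : ℝ → V, IsQIEmbedding Γ (Set.Ici 0) f ∧ Y = f '' Set.Ici 0

/-- `Y` is a quasiline: the image of a quasi-isometric embedding of the real line. -/
def IsQuasiLine {V : Type} (Γ : SimpleGraph V) (Y : Set V) : Prop :=
  ∃ f : ℝ → V, IsQIEmbedding Γ Set.univ f ∧ Y = Set.range f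

/-- The subgroup `H` is virtually `ℤ`: it has an element of infinite order which generates a
subgroup of finite index. -/
def VirtuallyZ {G : Type} [Group G] (H : Subgroup G) : Prop :=
  ∃ z : H, ¬ IsOfFinOrder z ∧ (Subgroup.zpowers z).FiniteIndex

/-- The group `G` splits over the subgroup `H`: it acts on a tree by automorphisms, without
inversions, without a global fixed vertex and with one orbit of (unoriented) edges, and `H` is
the stabiliser of an edge. -/
def SplitsOver (G : Type) [Group G] (H : Subgroup G) : Prop :=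
  ∃ (V : Type) (_ : MulAction G V) (T : SimpleGraph V), T.IsTree ∧
    (∀ (g : G) (v w : V), T.Adj v w → T.Adj (g • v) (g • w)) ∧
    (∀ (g : G) (v w : V), T.Adj v w → ¬ (g • v = w ∧ g • w = v)) ∧
    (∀ v : V, ∃ g : G, g • v ≠ v) ∧
    (∀ v w v' w' : V, T.Adj v w → T.Adj v' w' →
      ∃ g : G, (g • v = v' ∧ g • w = w') ∨ (g • v = w' ∧ g • w = v')) ∧
    ∃ v w : V, T.Adj v w ∧ MulAction.stabilizer G v ⊓ MulAction.stabilizer G w = H

/-- The relator `[a₁, b₁] ⋯ [a_g, b_g]` of the closed orientable surface of genus `g`. -/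
def orientableRelator (g : ℕ) : FreeGroup (Fin g × Bool) :=
  ((List.finRange g).map fun i => FreeGroup.of (i, false) * FreeGroup.of (i, true) *
    (FreeGroup.of (i, false))⁻¹ * (FreeGroup.of (i, true))⁻¹).prod

/-- The relator `a₁² ⋯ a_k²` of the closed nonorientable surface of genus `k`. -/
def nonorientableRelator (k : ℕ) : FreeGroup (Fin k) :=
  ((List.finRange k).map fun i => FreeGroup.of i ^ 2).prod

/-- The group is the fundamental group of a closed surface: it has the standard presentation
of an orientable surface of genus `g ≥ 0` or of a nonorientable one of genus `k ≥ 1`. -/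
def IsSurfaceGroup (H : Type) [Group H] : Prop :=
  (∃ g : ℕ, Nonempty (H ≃* PresentedGroup {orientableRelator g})) ∨
    ∃ k : ℕ, 1 ≤ k ∧ Nonempty (H ≃* PresentedGroup {nonorientableRelator k})

/-- The group has a subgroup of finite index which is the fundamental group of a closed
surface. -/
def VirtuallySurface (G : Type) [Group G] : Prop :=
  ∃ H : Subgroup G, H.FiniteIndex ∧ IsSurfaceGroup H

end Pool.Agent.W392
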